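import Pool.Agent.H99.LU.CStmts

/-!
Project LU, part C, module CHB: the boundary operator squares to zero and maps the chains of degree
`k + 1` to the chains of degree `k`.
-/

set_option autoImplicit false

open scoped BigOperators

noncomputable section

namespace Pool.LU

theorem sg_insert {V : Type} [DecidableEq V] (o : V → ℕ) (u v : V) (τ : Finset V) (hv : v ∉ τ) :
    sg o u (insert v τ) = (if o v < o u then -1 else 1) * sg o u τ := by
  unfold sg
  rw [Finset.filter_insert]
  split_ifs with h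
  · rw [Finset.card_insert_of_notMem (fun h' => hv (Finset.mem_of_mem_filter _ h')), pow_succ,
      mul_comm]
  · rw [one_mul]

theorem sg_swap {V : Type} [DecidableEq V] (o : V → ℕ) (ho : Function.Injective o) (u v : V)
    (huv : u ≠ v) (τ : Finset V) (hu : u ∉ τ) (hv : v ∉ τ) :
    sg o v τ * sg o u (insert v τ) = - (sg o u τ * sg o v (insert u τ)) := by
  rw [sg_insert o u v τ hv, sg_insert o v u τ hu]
  have h : o u ≠ o v := fun h => huv (ho h)
  rcases lt_or_gt_of_ne h with h1 | h1
  · rw [if_neg (by omega), if_pos h1]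
    ring
  · rw [if_pos h1, if_neg (by omega)]
    ring

theorem bd_bd (F : Type) [CommRing F] {V : Type} [Fintype V] [DecidableEq V] (o : V → ℕ)
    (ho : Function.Injective o) (X : Type) (x : Finset V → X → F) :
    bd F o X (bd F o X x) = 0 := by
  funext τ y
  rw [bd_apply]
  simp only [bd_apply, Finset.mul_sum]
  rw [Finset.sum_sigma']
  show _ = (0 : F)
  refine Finset.sum_involution (fun a _ => ⟨a.2, a.1⟩) ?_ ?_ ?_ ?_
  · rintro ⟨v, u⟩ hm
    simp only [Finset.mem_sigma, Finset.mem_sdiff, Finset.mem_univ, true_and,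
      Finset.mem_insert, not_or] at hm
    obtain ⟨hv, huv, hu⟩ := hm
    have h1 := sg_swap o ho u v huv τ hu hv
    have h2 : insert u (insert v τ) = insert v (insert u τ) := Finset.insert_comm _ _ _
    have h3 : ((sg o v τ : ℤ) : F) * ((sg o u (insert v τ) : ℤ) : F) =
        - (((sg o u τ : ℤ) : F) * ((sg o v (insert u τ) : ℤ) : F)) := by
      exact_mod_cast congrArg (fun z : ℤ => (z : F)) h1
    simp only
    rw [h2, ← mul_assoc, ← mul_assoc, h3]
    ring
  · rintro ⟨v, u⟩ hm _ h
    simp only [Finset.mem_sigma, Finset.mem_sdiff, Finset.mem_univ, true_and,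
      Finset.mem_insert, not_or] at hm
    have h' := congrArg Sigma.fst h
    exact hm.2.1 h'
  · rintro ⟨v, u⟩ hm
    simp only [Finset.mem_sigma, Finset.mem_sdiff, Finset.mem_univ, true_and,
      Finset.mem_insert, not_or] at hm ⊢
    exact ⟨hm.2.2, fun h => hm.2.1 h.symm, hm.1⟩
  · rintro ⟨v, u⟩ hm
    rfl

theorem bd_mem (F : Type) [CommRing F] {V : Type} [Fintype V] [DecidableEq V]
    (adj : V → V → Prop) (o : V → ℕ) (X : Type) (ρ : V → X → X) (A : Set V) (k : ℕ)
    (x : Finset V → X → F) (hx : x ∈ Ch F adj ρ A (k + 1)) : bd F o X x ∈ Ch F adj ρ A k := by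
  obtain ⟨h1, h2⟩ := hx
  refine ⟨fun τ hτ => ?_, fun τ w hw y => ?_⟩
  · obtain ⟨y, hy⟩ : ∃ y, bd F o X x τ y ≠ 0 := by
      by_contra hcon
      push Not at hcon
      exact hτ (funext hcon)
    rw [bd_apply] at hy
    obtain ⟨v, hv, hv'⟩ := Finset.exists_ne_zero_of_sum_ne_zero hy
    have hv1 : v ∉ τ := (Finset.mem_sdiff.1 hv).2
    have h3 : x (insert v τ) ≠ 0 := by
      intro h
      rw [h] at hv'
      simp at hv'
    obtain ⟨h4, h5, h6⟩ := h1 _ h3
    refine ⟨?_, fun w hw => h5 w (Finset.mem_insert_of_mem hw), fun a ha b hb hab =>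
      h6 a (Finset.mem_insert_of_mem ha) b (Finset.mem_insert_of_mem hb) hab⟩
    rw [Finset.card_insert_of_notMem hv1] at h4
    omega
  · rw [bd_apply, bd_apply, ← Finset.sum_neg_distrib]
    refine Finset.sum_congr rfl fun v _ => ?_
    rw [h2 (insert v τ) w (Finset.mem_insert_of_mem hw) y]
    ring

theorem chb : CHBStmt := by
  intro F _ V _ _ adj o ho X ρ
  refine ⟨fun x => bd_bd F o ho X x, fun A k => ?_⟩
  rintro _ ⟨x, hx, rfl⟩
  exact bd_mem F adj o X ρ A k x hx

end Pool.LU
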