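import Pool.Agent.H3.L2.Defs

/-!
Project LU, part Y: the homology of a finite based complex over `ℤ` with a filtration.
-/

set_option autoImplicit false

open scoped BigOperators
open Pool.H3.L2

noncomputable section

namespace Pool.LU

/-- cardinalities in a short exact sequence -/
theorem card_of_ses {A B C : Type} [AddCommGroup A] [AddCommGroup B] [AddCommGroup C]
    (g : A →ₗ[ℤ] B) (f : B →ₗ[ℤ] C) (hg : Function.Injective g) (hf : Function.Surjective f)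
    (h : LinearMap.range g = LinearMap.ker f) : Nat.card B = Nat.card A * Nat.card C := by
  rw [Submodule.card_eq_card_quotient_mul_card (LinearMap.ker f),
    Nat.card_congr (f.quotKerEquivOfSurjective hf).toEquiv, ← h,
    Nat.card_congr (LinearEquiv.ofInjective g hg).toEquiv, mul_comm]

theorem card_Hk_eq_one_iff (C : BCx ℤ) (k : ℕ) : Nat.card (C.Hk k) = 1 ↔ C.Zk k ≤ C.Bk k := by
  rw [Nat.card_eq_one_iff_unique]
  constructor
  · rintro ⟨h, -⟩ z hz
    have := Submodule.Quotient.subsingleton_iff.1 h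
    have h1 : (⟨z, hz⟩ : C.Zk k) ∈ (C.Bk k).submoduleOf (C.Zk k) := by
      rw [this]
      trivial
    exact h1
  · intro h
    refine ⟨Submodule.Quotient.subsingleton_iff.2 ?_, ⟨0⟩⟩
    rw [eq_top_iff]
    rintro ⟨z, hz⟩ -
    exact h hz

/-- A subcomplex `C'` of a based complex `C` with quotient complex `C''`. -/
structure Ext3 (C' C C'' : BCx ℤ) where
  e : C'.S ⊕ C''.S ≃ C.S
  deg' : ∀ a, C.deg (e (Sum.inl a)) = C'.deg a
  deg'' : ∀ a, C.deg (e (Sum.inr a)) = C''.deg a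
  D' : ∀ a b, C.D (e (Sum.inl a)) (e (Sum.inl b)) = C'.D a b
  D'' : ∀ a b, C.D (e (Sum.inr a)) (e (Sum.inr b)) = C''.D a b
  D0 : ∀ a b, C.D (e (Sum.inl a)) (e (Sum.inr b)) = 0

namespace Ext3

variable {C' C C'' : BCx ℤ} (E : Ext3 C' C C'')

include E

/-- the restriction to the quotient -/
def π : (C.S → ℤ) →ₗ[ℤ] (C''.S → ℤ) where
  toFun v := fun b => v (E.e (Sum.inr b))
  map_add' _ _ := rfl
  map_smul' _ _ := rfl

/-- the restriction to the subcomplex (not a chain map) -/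
def κ : (C.S → ℤ) →ₗ[ℤ] (C'.S → ℤ) where
  toFun v := fun b => v (E.e (Sum.inl b))
  map_add' _ _ := rfl
  map_smul' _ _ := rfl

/-- the extension by zero of a vector of the subcomplex -/
def ι : (C'.S → ℤ) →ₗ[ℤ] (C.S → ℤ) where
  toFun v := fun s => Sum.elim v (fun _ => 0) (E.e.symm s)
  map_add' v w := by
    funext s
    rcases h : E.e.symm s with a | b <;> simp [h]
  map_smul' c w := by
    funext s
    rcases h : E.e.symm s with a | b <;> simp [h]

/-- the extension by zero of a vector of the quotient (not a chain map) -/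
def σ : (C''.S → ℤ) →ₗ[ℤ] (C.S → ℤ) where
  toFun v := fun s => Sum.elim (fun _ => 0) v (E.e.symm s)
  map_add' v w := by
    funext s
    rcases h : E.e.symm s with a | b <;> simp [h]
  map_smul' c w := by
    funext s
    rcases h : E.e.symm s with a | b <;> simp [h]

theorem ι_inl (v : C'.S → ℤ) (a : C'.S) : E.ι v (E.e (Sum.inl a)) = v a := by simp [ι]
theorem ι_inr (v : C'.S → ℤ) (a : C''.S) : E.ι v (E.e (Sum.inr a)) = 0 := by simp [ι]
theorem σ_inl (v : C''.S → ℤ) (a : C'.S) : E.σ v (E.e (Sum.inl a)) = 0 := by simp [σ]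
theorem σ_inr (v : C''.S → ℤ) (a : C''.S) : E.σ v (E.e (Sum.inr a)) = v a := by simp [σ]

theorem ext {v w : C.S → ℤ} (h1 : ∀ a, v (E.e (Sum.inl a)) = w (E.e (Sum.inl a)))
    (h2 : ∀ a, v (E.e (Sum.inr a)) = w (E.e (Sum.inr a))) : v = w := by
  funext s
  obtain ⟨x, rfl⟩ := E.e.surjective s
  rcases x with a | a
  · exact h1 a
  · exact h2 a

theorem eq_ι {v : C.S → ℤ} (h : E.π v = 0) : v = E.ι (E.κ v) :=
  E.ext (fun a => (E.ι_inl (E.κ v) a).symm) (fun a => by rw [E.ι_inr]; exact congrFun h a)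

theorem π_ι (v : C'.S → ℤ) : E.π (E.ι v) = 0 := by
  funext a
  exact E.ι_inr v a

theorem π_σ (v : C''.S → ℤ) : E.π (E.σ v) = v := by
  funext a
  exact E.σ_inr v a

theorem ι_inj : Function.Injective E.ι := by
  intro v w h
  funext a
  rw [← E.ι_inl v, h, E.ι_inl]

theorem vecMul_apply (v : C.S → ℤ) (t : C.S) : Matrix.vecMul v C.D t =
    ∑ a, v (E.e (Sum.inl a)) * C.D (E.e (Sum.inl a)) t +
      ∑ a, v (E.e (Sum.inr a)) * C.D (E.e (Sum.inr a)) t := by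
  rw [Matrix.vecMul, dotProduct, ← Equiv.sum_comp E.e, Fintype.sum_sum_type]

theorem π_vecMul (v : C.S → ℤ) : E.π (Matrix.vecMul v C.D) = Matrix.vecMul (E.π v) C''.D := by
  funext b
  show Matrix.vecMul v C.D (E.e (Sum.inr b)) = _
  rw [E.vecMul_apply]
  simp only [E.D0, mul_zero, Finset.sum_const_zero, zero_add, E.D'']
  rfl

theorem ι_vecMul (v : C'.S → ℤ) : Matrix.vecMul (E.ι v) C.D = E.ι (Matrix.vecMul v C'.D) := by
  refine E.ext (fun a => ?_) (fun a => ?_)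
  · rw [E.vecMul_apply, E.ι_inl]
    simp only [E.ι_inl, E.ι_inr, zero_mul, Finset.sum_const_zero, add_zero, E.D']
    rfl
  · rw [E.vecMul_apply, E.ι_inr]
    simp only [E.ι_inl, E.ι_inr, zero_mul, Finset.sum_const_zero, add_zero, E.D0, mul_zero]

theorem supp_π {v : C.S → ℤ} {k : ℕ} (h : ∀ s, C.deg s ≠ k → v s = 0) :
    ∀ s, C''.deg s ≠ k → E.π v s = 0 := fun s hs => h _ (by rwa [E.deg''])

theorem supp_κ {v : C.S → ℤ} {k : ℕ} (h : ∀ s, C.deg s ≠ k → v s = 0) :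
    ∀ s, C'.deg s ≠ k → E.κ v s = 0 := fun s hs => h _ (by rwa [E.deg'])

theorem supp_ι {v : C'.S → ℤ} {k : ℕ} (h : ∀ s, C'.deg s ≠ k → v s = 0) :
    ∀ s, C.deg s ≠ k → E.ι v s = 0 := by
  intro s
  obtain ⟨x, rfl⟩ := E.e.surjective s
  rcases x with a | a
  · rw [E.deg', E.ι_inl]
    exact h a
  · intro _
    exact E.ι_inr v a

theorem supp_σ {v : C''.S → ℤ} {k : ℕ} (h : ∀ s, C''.deg s ≠ k → v s = 0) :
    ∀ s, C.deg s ≠ k → E.σ v s = 0 := by
  intro s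
  obtain ⟨x, rfl⟩ := E.e.surjective s
  rcases x with a | a
  · intro _
    exact E.σ_inl v a
  · rw [E.deg'', E.σ_inr]
    exact h a

omit E in
theorem vecMul_vecMul (C : BCx ℤ) (v : C.S → ℤ) :
    Matrix.vecMul (Matrix.vecMul v C.D) C.D = 0 := by
  rw [Matrix.vecMul_vecMul, C.D_D, Matrix.vecMul_zero]

omit E in
theorem supp_vecMul (C : BCx ℤ) {v : C.S → ℤ} {k : ℕ} (h : ∀ s, C.deg s ≠ k + 1 → v s = 0) :
    ∀ s, C.deg s ≠ k → Matrix.vecMul v C.D s = 0 := by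
  intro t ht
  rw [Matrix.vecMul, dotProduct]
  refine Finset.sum_eq_zero fun s _ => ?_
  by_cases h1 : v s = 0
  · rw [h1, zero_mul]
  · by_cases h2 : C.D s t = 0
    · rw [h2, mul_zero]
    · exfalso
      have h3 := C.deg_D s t h2
      have h4 : C.deg s = k + 1 := by
        by_contra h5
        exact h1 (h s h5)
      omega

omit E in
theorem vecMul_zero_deg (C : BCx ℤ) {v : C.S → ℤ} (h : ∀ s, C.deg s ≠ 0 → v s = 0) :
    Matrix.vecMul v C.D = 0 := by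
  funext t
  rw [Matrix.vecMul, dotProduct]
  refine Finset.sum_eq_zero fun s _ => ?_
  by_cases h1 : v s = 0
  · rw [h1, zero_mul]
  · by_cases h2 : C.D s t = 0
    · rw [h2, mul_zero]
    · exfalso
      have h3 := C.deg_D s t h2
      have h4 : C.deg s = 0 := by
        by_contra h5
        exact h1 (h s h5)
      omega

theorem π_mem_Zk {v : C.S → ℤ} {k : ℕ} (h : v ∈ C.Zk k) : E.π v ∈ C''.Zk k := by
  refine ⟨E.supp_π h.1, ?_⟩
  rw [← E.π_vecMul, h.2, map_zero]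

theorem π_mem_Bk {v : C.S → ℤ} {k : ℕ} (h : v ∈ C.Bk k) : E.π v ∈ C''.Bk k := by
  obtain ⟨w, hw, rfl⟩ := h
  exact ⟨E.π w, E.supp_π hw, (E.π_vecMul w).symm⟩

theorem ι_mem_Zk {v : C'.S → ℤ} {k : ℕ} (h : v ∈ C'.Zk k) : E.ι v ∈ C.Zk k := by
  refine ⟨E.supp_ι h.1, ?_⟩
  rw [E.ι_vecMul, h.2, map_zero]

theorem ι_mem_Bk {v : C'.S → ℤ} {k : ℕ} (h : v ∈ C'.Bk k) : E.ι v ∈ C.Bk k := by
  obtain ⟨w, hw, rfl⟩ := h
  exact ⟨E.ι w, E.supp_ι hw, E.ι_vecMul w⟩

theorem κ_mem_Zk {v : C.S → ℤ} {k : ℕ} (h : v ∈ C.Zk k) (h0 : E.π v = 0) :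
    E.κ v ∈ C'.Zk k := by
  refine ⟨E.supp_κ h.1, E.ι_inj ?_⟩
  rw [← E.ι_vecMul, ← E.eq_ι h0, h.2, map_zero]

/-- a cycle of `C` which is a boundary in the quotient is homologous to a cycle of `C'` -/
theorem lift_bd {v : C.S → ℤ} {k : ℕ} (h : v ∈ C.Zk k) (h1 : E.π v ∈ C''.Bk k) :
    ∃ z ∈ C'.Zk k, v - E.ι z ∈ C.Bk k := by
  obtain ⟨w, hw, hw'⟩ := h1
  set x := v - Matrix.vecMul (E.σ w) C.D with hx
  have hx0 : E.π x = 0 := by
    rw [hx, map_sub, E.π_vecMul, E.π_σ, hw', sub_self]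
  have hxZ : x ∈ C.Zk k := by
    refine (C.Zk k).sub_mem h ⟨supp_vecMul C (E.supp_σ hw), vecMul_vecMul C _⟩
  refine ⟨E.κ x, E.κ_mem_Zk hxZ hx0, E.σ w, E.supp_σ hw, ?_⟩
  rw [← E.eq_ι hx0, hx]
  abel

theorem triv {k : ℕ} (h' : C'.Zk k ≤ C'.Bk k) (h'' : C''.Zk k ≤ C''.Bk k) :
    C.Zk k ≤ C.Bk k := by
  intro v hv
  obtain ⟨z, hz, hz'⟩ := E.lift_bd hv (h'' (E.π_mem_Zk hv))
  have := (C.Bk k).add_mem hz' (E.ι_mem_Bk (h' hz))
  rwa [sub_add_cancel] at this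

/-- surjectivity on cycles -/
theorem surj {k : ℕ} (h' : C'.Zk k ≤ C'.Bk k) {z : C''.S → ℤ} (hz : z ∈ C''.Zk (k + 1)) :
    ∃ v ∈ C.Zk (k + 1), E.π v = z := by
  have h1 : E.π (Matrix.vecMul (E.σ z) C.D) = 0 := by
    rw [E.π_vecMul, E.π_σ, hz.2]
  have h2 : Matrix.vecMul (E.σ z) C.D ∈ C.Zk k :=
    ⟨supp_vecMul C (E.supp_σ hz.1), vecMul_vecMul C _⟩
  obtain ⟨y, hy, hy'⟩ := h' (E.κ_mem_Zk h2 h1)
  refine ⟨E.σ z - E.ι y, ⟨?_, ?_⟩, ?_⟩
  · intro s hs
    rw [Pi.sub_apply, E.supp_σ hz.1 s hs, E.supp_ι hy s hs, sub_zero]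
  · rw [Matrix.sub_vecMul, E.ι_vecMul, hy', ← E.eq_ι h1, sub_self]
  · rw [map_sub, E.π_σ, E.π_ι, sub_zero]

/-- injectivity -/
theorem inj {k : ℕ} (h'' : C''.Zk (k + 1) ≤ C''.Bk (k + 1)) {z : C'.S → ℤ}
    (hz : E.ι z ∈ C.Bk k) : z ∈ C'.Bk k := by
  obtain ⟨w, hw, hw'⟩ := hz
  have h1 : E.π w ∈ C''.Zk (k + 1) := by
    refine ⟨E.supp_π hw, ?_⟩
    rw [← E.π_vecMul, hw', E.π_ι]
  obtain ⟨x, hx, hx'⟩ := h'' h1
  set y := w - Matrix.vecMul (E.σ x) C.D with hy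
  have hy0 : E.π y = 0 := by
    rw [hy, map_sub, E.π_vecMul, E.π_σ, hx', sub_self]
  have hys : ∀ s, C.deg s ≠ k + 1 → y s = 0 := by
    intro s hs
    rw [hy, Pi.sub_apply, hw s hs, supp_vecMul C (E.supp_σ hx) s hs, sub_zero]
  refine ⟨E.κ y, E.supp_κ hys, E.ι_inj ?_⟩
  rw [← E.ι_vecMul, ← E.eq_ι hy0, hy, Matrix.sub_vecMul, vecMul_vecMul, sub_zero, hw']

/-- multiplicativity of the orders of the homology groups -/
theorem card_mul {k : ℕ} (h' : C'.Zk k ≤ C'.Bk k) (h'' : C''.Zk (k + 2) ≤ C''.Bk (k + 2)) :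
    Nat.card (C.Hk (k + 1)) = Nat.card (C'.Hk (k + 1)) * Nat.card (C''.Hk (k + 1)) := by
  let g0 : ↥(C'.Zk (k + 1)) →ₗ[ℤ] ↥(C.Zk (k + 1)) :=
    (E.ι.comp (C'.Zk (k + 1)).subtype).codRestrict (C.Zk (k + 1)) fun v => E.ι_mem_Zk v.2
  let f0 : ↥(C.Zk (k + 1)) →ₗ[ℤ] ↥(C''.Zk (k + 1)) :=
    (E.π.comp (C.Zk (k + 1)).subtype).codRestrict (C''.Zk (k + 1)) fun v => E.π_mem_Zk v.2
  let g : C'.Hk (k + 1) →ₗ[ℤ] C.Hk (k + 1) :=
    Submodule.mapQ _ _ g0 (fun v hv => E.ι_mem_Bk hv)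
  let f : C.Hk (k + 1) →ₗ[ℤ] C''.Hk (k + 1) :=
    Submodule.mapQ _ _ f0 (fun v hv => E.π_mem_Bk hv)
  have hg : ∀ v, g (Submodule.Quotient.mk v) = Submodule.Quotient.mk (g0 v) := fun v => rfl
  have hf : ∀ v, f (Submodule.Quotient.mk v) = Submodule.Quotient.mk (f0 v) := fun v => rfl
  refine card_of_ses g f ?_ ?_ ?_
  · rw [injective_iff_map_eq_zero]
    intro a ha
    obtain ⟨v, rfl⟩ := Submodule.Quotient.mk_surjective _ a
    rw [hg, Submodule.Quotient.mk_eq_zero] at ha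
    rw [Submodule.Quotient.mk_eq_zero]
    exact E.inj h'' ha
  · intro a
    obtain ⟨⟨z, hz⟩, rfl⟩ := Submodule.Quotient.mk_surjective _ a
    obtain ⟨v, hv, hv'⟩ := E.surj h' hz
    refine ⟨Submodule.Quotient.mk ⟨v, hv⟩, ?_⟩
    rw [hf]
    congr 1
    exact Subtype.ext hv'
  · ext a
    obtain ⟨⟨v, hv⟩, rfl⟩ := Submodule.Quotient.mk_surjective _ a
    constructor
    · rintro ⟨b, hb⟩
      obtain ⟨⟨z, hz⟩, rfl⟩ := Submodule.Quotient.mk_surjective _ b
      rw [← hb, LinearMap.mem_ker, hg, hf, Submodule.Quotient.mk_eq_zero]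
      have h0 : f0 (g0 ⟨z, hz⟩) = 0 := Subtype.ext (E.π_ι z)
      rw [h0]
      exact Submodule.zero_mem _
    · intro h
      rw [LinearMap.mem_ker, hf, Submodule.Quotient.mk_eq_zero] at h
      obtain ⟨z, hz, hz'⟩ := E.lift_bd hv h
      refine ⟨Submodule.Quotient.mk ⟨z, hz⟩, ?_⟩
      rw [hg]
      symm
      rw [Submodule.Quotient.eq]
      exact hz'

end Ext3

section filt

variable (C : BCx ℤ) (ht : C.S → ℕ) (hD : ∀ s t, C.D s t ≠ 0 → ht t ≤ ht s)

/-- The subcomplex of the elements of height less than `n`. -/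
def low (n : ℕ) : BCx ℤ where
  S := {s // ht s < n}
  deg s := C.deg s.1
  D := C.D.submatrix (fun s => s.1) (fun s => s.1)
  deg_D := fun s t h => C.deg_D s.1 t.1 h
  D_D := by
    ext s t
    have h1 : (C.D * C.D) s.1 t.1 = 0 := by rw [C.D_D]; rfl
    rw [Matrix.mul_apply] at h1 ⊢
    rw [Matrix.zero_apply, ← h1]
    refine Fintype.sum_of_injective (fun u : {s // ht s < n} => u.1) Subtype.val_injective _ _ ?_ ?_
    · intro u hu
      by_cases h2 : C.D s.1 u = 0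
      · rw [h2, zero_mul]
      · exact absurd ⟨⟨u, lt_of_le_of_lt (hD _ _ h2) s.2⟩, rfl⟩ hu
    · intro u
      rfl

/-- The complex without elements. -/
def emp : BCx ℤ where
  S := Empty
  deg s := s.elim
  D := fun s _ => s.elim
  deg_D := fun s _ _ => s.elim
  D_D := by ext s; exact s.elim

theorem emp_triv (k : ℕ) : emp.Zk k ≤ emp.Bk k := by
  intro v _
  refine ⟨0, fun s _ => rfl, ?_⟩
  funext s
  exact (s : Empty).elim

/-- The data of a filtration with the graded pieces `B i`. -/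
structure Fil {M : ℕ} (B : Fin M → BCx ℤ) where
  lt : ∀ s, ht s < M
  j : ∀ i, (B i).S → C.S
  inj : ∀ i, Function.Injective (j i)
  ht_j : ∀ i b, ht (j i b) = i.1
  surj : ∀ s, ∃ b, j ⟨ht s, lt s⟩ b = s
  deg_j : ∀ i b, C.deg (j i b) = (B i).deg b
  D_j : ∀ i a b, C.D (j i a) (j i b) = (B i).D a b

variable {C ht} {M : ℕ} {B : Fin M → BCx ℤ}

/-- one step of the filtration -/
def Fil.step (F : Fil C ht B) (n : ℕ) (hn : n < M) :
    Ext3 (low C ht hD n) (low C ht hD (n + 1)) (B ⟨n, hn⟩) where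
  e := Equiv.ofBijective (Sum.elim (fun s => ⟨s.1, Nat.lt_succ_of_lt s.2⟩)
    (fun b => ⟨F.j ⟨n, hn⟩ b, by rw [F.ht_j]; exact Nat.lt_succ_self n⟩)) (by
      constructor
      · rintro (a | a) (b | b) h
        · have h1 : a.1 = b.1 := congrArg (fun x => x.1) h
          rw [Subtype.ext h1]
        · have h1 : a.1 = F.j ⟨n, hn⟩ b := congrArg Subtype.val h
          have h2 := a.2
          rw [h1, F.ht_j] at h2
          exact absurd h2 (lt_irrefl _)
        · have h1 : F.j ⟨n, hn⟩ a = b.1 := congrArg Subtype.val h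
          have h2 := b.2
          rw [← h1, F.ht_j] at h2
          exact absurd h2 (lt_irrefl _)
        · have h1 : F.j ⟨n, hn⟩ a = F.j ⟨n, hn⟩ b := congrArg (fun x => x.1) h
          rw [F.inj _ h1]
      · rintro ⟨s, hs⟩
        rcases Nat.lt_succ_iff_lt_or_eq.1 hs with h | h
        · exact ⟨Sum.inl ⟨s, h⟩, rfl⟩
        · obtain ⟨b, hb⟩ := F.surj s
          subst h
          exact ⟨Sum.inr b, Subtype.ext hb⟩)
  deg' _ := rfl
  deg'' b := F.deg_j _ b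
  D' _ _ := rfl
  D'' a b := F.D_j _ a b
  D0 a b := by
    by_contra h
    have h1 := hD a.1 (F.j ⟨n, hn⟩ b) h
    rw [F.ht_j] at h1
    exact absurd a.2 (not_lt.2 h1)

/-- the last step -/
def topStep (M : ℕ) (hM : ∀ s, ht s < M) : Ext3 (low C ht hD M) C emp where
  e := Equiv.ofBijective (Sum.elim (fun s => s.1) (fun b : Empty => b.elim)) (by
      constructor
      · rintro (a | a) (b | b) h
        · rw [Subtype.ext h]
        · exact (b : Empty).elim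
        · exact (a : Empty).elim
        · exact (a : Empty).elim
      · intro s
        exact ⟨Sum.inl ⟨s, hM s⟩, rfl⟩)
  deg' _ := rfl
  deg'' b := (b : Empty).elim
  D' _ _ := rfl
  D'' a b := (b : Empty).elim
  D0 a b := (b : Empty).elim

theorem low_zero_triv (k : ℕ) : (low C ht hD 0).Zk k ≤ (low C ht hD 0).Bk k := by
  intro v _
  refine ⟨0, fun s _ => rfl, ?_⟩
  funext s
  exact absurd s.2 (Nat.not_lt_zero _)

include hD in
/-- The homology of a filtered complex if the homology of the graded pieces is concentrated in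
one degree. -/
theorem Fil.main (F : Fil C ht B) (d : ℕ)
    (h : ∀ i, ∀ k, k ≠ d + 1 → (B i).Zk k ≤ (B i).Bk k) :
    (∀ k, k ≠ d + 1 → C.Zk k ≤ C.Bk k) ∧
      Nat.card (C.Hk (d + 1)) = ∏ i : Fin M, Nat.card ((B i).Hk (d + 1)) := by
  let g : ℕ → ℕ := fun i => if h : i < M then Nat.card ((B ⟨i, h⟩).Hk (d + 1)) else 1
  have key : ∀ n ≤ M, (∀ k, k ≠ d + 1 → (low C ht hD n).Zk k ≤ (low C ht hD n).Bk k) ∧
      Nat.card ((low C ht hD n).Hk (d + 1)) = ∏ i ∈ Finset.range n, g i := by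
    intro n
    induction n with
    | zero =>
      intro _
      refine ⟨fun k _ => low_zero_triv hD k, ?_⟩
      rw [Finset.range_zero, Finset.prod_empty]
      exact (card_Hk_eq_one_iff _ _).2 (low_zero_triv hD _)
    | succ n ih =>
      intro hn
      obtain ⟨h1, h2⟩ := ih (by omega)
      refine ⟨fun k hk => (F.step hD n hn).triv (h1 k hk) (h _ k hk), ?_⟩
      rw [Finset.prod_range_succ, ← h2]
      have h3 : g n = Nat.card ((B ⟨n, hn⟩).Hk (d + 1)) := dif_pos hn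
      rw [h3]
      exact (F.step hD n hn).card_mul (h1 d (by omega)) (h _ (d + 2) (by omega))
  obtain ⟨h1, h2⟩ := key M le_rfl
  refine ⟨fun k hk => (topStep hD M F.lt).triv (h1 k hk) (emp_triv k), ?_⟩
  have h3 := (topStep hD M F.lt).card_mul (h1 d (by omega)) (emp_triv (d + 2))
  rw [h3, h2, (card_Hk_eq_one_iff _ _).2 (emp_triv _), mul_one, Finset.prod_range]
  exact Finset.prod_congr rfl fun i _ => dif_pos i.2

end filt

end Pool.LU
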