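import Pool.Agent.H81.LU.YDefs
import Pool.Agent.H72.LU.Filt

/-!
Project LU, part Y, module FIL: the homology of `C / u` from the homology of the states.
-/

set_option autoImplicit false

open scoped BigOperators
open Pool.H3.L2

noncomputable section

namespace Pool.LU

section

variable {V : Type} [Fintype V] [DecidableEq V] {adj : V → V → Prop} (o : V → ℕ)
  (ho : Function.Injective o) (H : HSet V adj)

theorem at0_D (p q : H.toW.Cell) : (at0 (H.Mor o ho)).D p q =
    ∑ v ∈ p.1.2, if q.1.2 = p.1.2.erase v then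
      sg o v (p.1.2.erase v) * ((if q.1.1 = p.1.1 then 1 else 0) -
        (if q.1.1 = H.toW.ρ v p.1.1 then (if H.a p.1.1 = 0 then 0 else 1) else 0))
    else 0 := by
  show (Polynomial.evalRingHom 0) (H.toW.mat o p q) = _
  unfold WSet.mat
  rw [map_sum]
  refine Finset.sum_congr rfl fun v _ => ?_
  by_cases h1 : q.1.2 = p.1.2.erase v
  · rw [if_pos h1, if_pos h1, map_mul, map_sub]
    congr 1
    · simp
    · congr 1
      · by_cases h2 : q.1.1 = p.1.1
        · rw [if_pos h2, if_pos h2, map_one]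
        · rw [if_neg h2, if_neg h2, map_zero]
      · by_cases h2 : q.1.1 = H.toW.ρ v p.1.1
        · rw [if_pos h2, if_pos h2]
          show (Polynomial.evalRingHom 0) (Polynomial.X ^ H.wr p.1.1 : Polynomial ℤ) = _
          unfold HSet.wr
          split_ifs <;> simp
        · rw [if_neg h2, if_neg h2, map_zero]
  · rw [if_neg h1, if_neg h1, map_zero]

theorem at0_D_ne {p q : H.toW.Cell} (h : (at0 (H.Mor o ho)).D p q ≠ 0) :
    q.1.1 = p.1.1 ∨ H.a q.1.1 < H.a p.1.1 := by
  by_contra hc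
  push Not at hc
  apply h
  rw [at0_D]
  refine Finset.sum_eq_zero fun v hv => ?_
  by_cases h1 : q.1.2 = p.1.2.erase v
  · rw [if_pos h1, if_neg hc.1]
    by_cases h4 : q.1.1 = H.toW.ρ v p.1.1
    · rw [if_pos h4]
      by_cases h5 : H.a p.1.1 = 0
      · rw [if_pos h5, sub_zero, mul_zero]
      · exfalso
        have h6 := H.step v p.1.1 (p.2.2 hv)
        have h7 : H.a (H.ρ v p.1.1) = H.a q.1.1 := by rw [h4]; rfl
        have h8 := hc.2
        omega
    · rw [if_neg h4, sub_zero, mul_zero]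
  · rw [if_neg h1]

theorem st_D (A : Finset V) (p q : (stW ℤ adj A).Cell) : (St adj o ho A).D p q =
    ∑ v ∈ p.1.2, if q.1.2 = p.1.2.erase v then sg o v (p.1.2.erase v) else 0 := by
  show (stW ℤ adj A).mat o p q = _
  unfold WSet.mat
  refine Finset.sum_congr rfl fun v _ => ?_
  by_cases h1 : q.1.2 = p.1.2.erase v
  · rw [if_pos h1, if_pos h1]
    have h2 : q.1.1 = p.1.1 := rfl
    have h3 : (stW ℤ adj A).w v p.1.1 = 0 := rfl
    rw [if_pos h2, h3, ite_self, sub_zero, mul_one]
    exact Int.cast_id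
  · rw [if_neg h1, if_neg h1]

/-- the inclusion of the cells of a state -/
def inc (x : H.X) (b : (stW ℤ adj (H.des x)).Cell) : H.toW.Cell := ⟨(x, b.1.2), b.2⟩

theorem inc_D (x : H.X) (a b : (stW ℤ adj (H.des x)).Cell) :
    (at0 (H.Mor o ho)).D (inc H x a) (inc H x b) = (St adj o ho (H.des x)).D a b := by
  rw [at0_D, st_D]
  refine Finset.sum_congr rfl fun v hv => ?_
  have h0 : v ∈ H.des x := a.2.2 hv
  have h1 : ¬ (inc H x b).1.1 = H.toW.ρ v (inc H x a).1.1 := by
    intro h
    have h3 : x = H.ρ v x := h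
    have h2 := H.des_self v x
    rw [← h3] at h2
    tauto
  have h2 : (inc H x b).1.1 = (inc H x a).1.1 := rfl
  rw [if_neg h1, if_pos h2, sub_zero, mul_one]
  rfl

omit [Fintype V] [DecidableEq V] in
/-- an enumeration of the elements with monotone heights -/
theorem exists_enum : ∃ e : Fin (Fintype.card H.X) ≃ H.X, Monotone fun i => H.a (e i) := by
  let e0 : Fin (Fintype.card H.X) ≃ H.X := (Fintype.equivFin H.X).symm
  exact ⟨(Tuple.sort fun i => H.a (e0 i)).trans e0, Tuple.monotone_sort fun i => H.a (e0 i)⟩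

/-- the filtration by the elements of `X`, ordered by height -/
def hFil (e : Fin (Fintype.card H.X) ≃ H.X) :
    Fil (at0 (H.Mor o ho)) (fun p : H.toW.Cell => (e.symm p.1.1).1)
      (fun i => St adj o ho (H.des (e i))) where
  lt p := (e.symm p.1.1).2
  j i b := inc H (e i) b
  inj i a b h := by
    have h1 : a.1.2 = b.1.2 := congrArg (fun p : H.toW.Cell => p.1.2) h
    exact Subtype.ext (Prod.ext rfl h1)
  ht_j i b := by
    show (e.symm (e i)).1 = i.1
    rw [Equiv.symm_apply_apply]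
  surj := by
    rintro ⟨⟨x, σ⟩, h⟩
    obtain ⟨i, rfl⟩ := e.surjective x
    have h2 : (⟨(e.symm (e i)).1, (e.symm (e i)).2⟩ : Fin (Fintype.card H.X)) = i := by
      rw [Equiv.symm_apply_apply]
    refine ⟨⟨((), σ), h.1, ?_⟩, ?_⟩
    · have h3 : σ ⊆ H.des (e (e.symm (e i))) := by
        rw [Equiv.apply_symm_apply]
        exact h.2
      exact h3
    · refine Subtype.ext (Prod.ext ?_ rfl)
      show e (e.symm (e i)) = e i
      rw [Equiv.apply_symm_apply]
  deg_j i b := rfl
  D_j i a b := inc_D o ho H (e i) a b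

theorem fil_main (h : ∀ x k, k ≠ 2 → Nat.card ((St adj o ho (H.des x)).Hk k) = 1) :
    (∀ k, k ≠ 2 → Nat.card ((at0 (H.Mor o ho)).Hk k) = 1) ∧
      Nat.card ((at0 (H.Mor o ho)).Hk 2) = ∏ x, Nat.card ((St adj o ho (H.des x)).Hk 2) := by
  obtain ⟨e, he⟩ := exists_enum H
  have hD : ∀ p q : H.toW.Cell, (at0 (H.Mor o ho)).D p q ≠ 0 →
      (e.symm q.1.1).1 ≤ (e.symm p.1.1).1 := by
    intro p q hpq
    rcases at0_D_ne o ho H hpq with h1 | h1
    · rw [h1]
    · by_contra h2
      push Not at h2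
      have h3 := he (le_of_lt (show e.symm p.1.1 < e.symm q.1.1 from h2))
      have h4 : e (e.symm p.1.1) = p.1.1 := e.apply_symm_apply _
      have h5 : e (e.symm q.1.1) = q.1.1 := e.apply_symm_apply _
      simp only [h4, h5] at h3
      omega
  obtain ⟨h1, h2⟩ := Fil.main hD (hFil o ho H e) 1
    (fun i k hk => (card_Hk_eq_one_iff _ _).1 (h (e i) k hk))
  refine ⟨fun k hk => (card_Hk_eq_one_iff _ _).2 (h1 k hk), ?_⟩
  rw [h2]
  exact Equiv.prod_comp e fun x => Nat.card ((St adj o ho (H.des x)).Hk 2)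

end

end Pool.LU
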