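import Pool.Agent.H81.LU.YStmts
import Pool.Agent.H72.LU.FIL

/-!
Project LU, part Y, modules FIL and CNT.
-/

set_option autoImplicit false

open scoped BigOperators
open Pool.H3.L2

noncomputable section

namespace Pool.LU

theorem card_eq_one_iff_subs (C : BCx ℤ) (k : ℕ) :
    Nat.card (C.Hk k) = 1 ↔ Subsingleton (C.Hk k) := by
  rw [Nat.card_eq_one_iff_unique]
  exact ⟨fun h => h.1, fun h => ⟨h, ⟨0⟩⟩⟩

theorem fil : FILStmt := by
  intro V _ _ adj H o ho h1 h2
  obtain ⟨h3, h4⟩ := fil_main o ho H fun x k hk => (card_eq_one_iff_subs _ _).2 (h1 x k hk)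
  refine ⟨fun k hk => (card_eq_one_iff_subs _ _).1 (h3 k hk), ?_, h4⟩
  have h5 : ∏ x : H.X, Nat.card ((St adj o ho (H.des x)).Hk 2) ≠ 0 := by
    rw [Finset.prod_ne_zero_iff]
    intro x _
    have := h2 x
    exact Nat.card_pos.ne'
  rw [← h4] at h5
  exact (Nat.card_ne_zero.1 h5).2

theorem cnt' : CNTStmt := by
  intro V X _ _ n κ ρ col hρ hcol hs b
  classical
  choose v hv using hs
  -- fibres over sign vectors which differ in one coordinate have the same number of elements
  have key : ∀ (c : Fin n) (b : Fin n → ℤˣ),
      (Finset.univ.filter (fun x : X => col x = Function.update b c (- b c))).card =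
        (Finset.univ.filter (fun x : X => col x = b)).card := by
    intro c b
    have hc : ∀ x, col (ρ (v c) x) = Function.update (col x) c (- col x c) := by
      intro x
      funext c'
      rw [hcol, hv]
      by_cases h : c' = c
      · rw [if_pos h, h, Function.update_self]
      · rw [if_neg h, Function.update_of_ne h]
    refine Finset.card_bij (fun x _ => ρ (v c) x) ?_ ?_ ?_
    · intro x hx
      rw [Finset.mem_filter] at hx ⊢
      refine ⟨Finset.mem_univ _, ?_⟩
      rw [hc, hx.2, Function.update_self, neg_neg, Function.update_idem, Function.update_eq_self]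
    · intro x _ y _ h
      rw [← hρ (v c) x, h, hρ]
    · intro y hy
      rw [Finset.mem_filter] at hy
      refine ⟨ρ (v c) y, ?_, hρ _ _⟩
      rw [Finset.mem_filter]
      refine ⟨Finset.mem_univ _, ?_⟩
      rw [hc, hy.2]
  -- all fibres have the same number of elements
  have all : ∀ (s : Finset (Fin n)) (b b' : Fin n → ℤˣ), (∀ c, c ∉ s → b c = b' c) →
      (Finset.univ.filter (fun x : X => col x = b)).card =
        (Finset.univ.filter (fun x : X => col x = b')).card := by
    intro s
    induction s using Finset.induction_on with
    | empty =>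
      intro b b' h
      have : b = b' := funext fun c => h c (Finset.notMem_empty c)
      rw [this]
    | insert c s hcs ih =>
      intro b b' h
      by_cases h1 : b c = b' c
      · refine ih b b' fun c' hc' => ?_
        by_cases h2 : c' = c
        · rw [h2, h1]
        · exact h c' fun h3 => (Finset.mem_insert.1 h3).elim h2 hc'
      · rw [← key c b]
        refine ih _ b' fun c' hc' => ?_
        by_cases h2 : c' = c
        · rw [h2, Function.update_self]
          rcases Int.units_eq_one_or (b c) with h3 | h3 <;>
            rcases Int.units_eq_one_or (b' c) with h4 | h4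
          · exact absurd (h3.trans h4.symm) h1
          · rw [h3, h4]
          · rw [h3, h4, neg_neg]
          · exact absurd (h3.trans h4.symm) h1
        · rw [Function.update_of_ne h2]
          exact h c' fun h3 => (Finset.mem_insert.1 h3).elim h2 hc'
  have h1 : Fintype.card X = ∑ b' : Fin n → ℤˣ,
      (Finset.univ.filter (fun x : X => col x = b')).card := by
    rw [← Finset.card_univ]
    exact Finset.card_eq_sum_card_fiberwise fun x _ => Finset.mem_coe.2 (Finset.mem_univ _)
  rw [h1, Finset.sum_congr rfl fun b' _ => all Finset.univ b' b fun c hc =>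
    absurd (Finset.mem_univ c) hc, Finset.sum_const, Finset.card_univ, smul_eq_mul,
    Fintype.card_fun, Fintype.card_fin, Fintype.card_units_int]

end Pool.LU
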