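import Pool.Agent.H72.LU.FIL

/-!
Project LU, part Y: removing a vertex with acyclic link from a full subcomplex.
-/

set_option autoImplicit false

open scoped BigOperators
open Pool.H3.L2

noncomputable section

namespace Pool.LU

/-- isomorphism on homology if the quotient is acyclic -/
theorem Ext3.card_eq {C' C C'' : BCx ℤ} (E : Ext3 C' C C'')
    (h'' : ∀ k, C''.Zk k ≤ C''.Bk k) (k : ℕ) : Nat.card (C.Hk k) = Nat.card (C'.Hk k) := by
  let g0 : ↥(C'.Zk k) →ₗ[ℤ] ↥(C.Zk k) :=
    (E.ι.comp (C'.Zk k).subtype).codRestrict (C.Zk k) fun v => E.ι_mem_Zk v.2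
  let g : C'.Hk k →ₗ[ℤ] C.Hk k := Submodule.mapQ _ _ g0 (fun v hv => E.ι_mem_Bk hv)
  have hg : ∀ v, g (Submodule.Quotient.mk v) = Submodule.Quotient.mk (g0 v) := fun v => rfl
  refine (Nat.card_congr (Equiv.ofBijective g ⟨?_, ?_⟩)).symm
  · rw [injective_iff_map_eq_zero]
    intro a ha
    obtain ⟨v, rfl⟩ := Submodule.Quotient.mk_surjective _ a
    rw [hg, Submodule.Quotient.mk_eq_zero] at ha
    rw [Submodule.Quotient.mk_eq_zero]
    exact E.inj (h'' (k + 1)) ha
  · intro a
    obtain ⟨⟨v, hv⟩, rfl⟩ := Submodule.Quotient.mk_surjective _ a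
    obtain ⟨z, hz, hz'⟩ := E.lift_bd hv (h'' k (E.π_mem_Zk hv))
    refine ⟨Submodule.Quotient.mk ⟨z, hz⟩, ?_⟩
    rw [hg]
    symm
    rw [Submodule.Quotient.eq]
    exact hz'

/-- the complex with degrees raised by one and signs changed -/
def shf (B : BCx ℤ) (ε : B.S → ℤ) (hε : ∀ s, ε s * ε s = 1) : BCx ℤ where
  S := B.S
  deg s := B.deg s + 1
  D := Matrix.of fun s t => ε s * ε t * B.D s t
  deg_D := by
    intro s t h
    have h1 : B.D s t ≠ 0 := by
      intro h0
      apply h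
      rw [Matrix.of_apply, h0, mul_zero]
    rw [B.deg_D s t h1]
  D_D := by
    ext s t
    have h1 : (B.D * B.D) s t = 0 := by rw [B.D_D]; rfl
    rw [Matrix.mul_apply] at h1 ⊢
    have h2 : ∀ u, Matrix.of (fun s t => ε s * ε t * B.D s t) s u *
        Matrix.of (fun s t => ε s * ε t * B.D s t) u t =
        (ε s * ε t) * (B.D s u * B.D u t) := by
      intro u
      rw [Matrix.of_apply, Matrix.of_apply]
      linear_combination (ε s * ε t * B.D s u * B.D u t) * hε u
    rw [Finset.sum_congr rfl fun u _ => h2 u, ← Finset.mul_sum, h1, mul_zero]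
    rfl

/-- the change of signs -/
def tw (B : BCx ℤ) (ε : B.S → ℤ) (hε : ∀ s, ε s * ε s = 1) (v : B.S → ℤ) :
    (shf B ε hε).S → ℤ := fun s => ε s * v s

theorem shf_vecMul (B : BCx ℤ) (ε : B.S → ℤ) (hε : ∀ s, ε s * ε s = 1) (v : B.S → ℤ) :
    Matrix.vecMul (tw B ε hε v) (shf B ε hε).D = tw B ε hε (Matrix.vecMul v B.D) := by
  funext t
  show ∑ s : B.S, ε s * v s * (ε s * ε t * B.D s t) = ε t * ∑ s : B.S, v s * B.D s t
  rw [Finset.mul_sum]
  refine Finset.sum_congr rfl fun s _ => ?_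
  linear_combination (v s * ε t * B.D s t) * hε s

theorem shf_triv (B : BCx ℤ) (ε : B.S → ℤ) (hε : ∀ s, ε s * ε s = 1)
    (h : ∀ k, B.Zk k ≤ B.Bk k) (k : ℕ) : (shf B ε hε).Zk k ≤ (shf B ε hε).Bk k := by
  intro v hv
  have hv1 : ∀ s : B.S, B.deg s + 1 ≠ k → v s = 0 := hv.1
  rcases k with _ | k
  · have h0 : v = 0 := by
      funext s
      exact hv1 s (Nat.succ_ne_zero _)
    rw [h0]
    exact Submodule.zero_mem _
  · let w : B.S → ℤ := fun s => ε s * v s
    have hw : tw B ε hε w = v := by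
      funext s
      have h0 : ∀ s : B.S, ε s * (ε s * v s) = v s := fun s => by rw [← mul_assoc, hε, one_mul]
      exact h0 s
    have h1 : w ∈ B.Zk k := by
      refine ⟨fun s hs => ?_, ?_⟩
      · show ε s * v s = 0
        rw [hv1 s (by omega), mul_zero]
      · have h2 := shf_vecMul B ε hε w
        rw [hw] at h2
        have h2' : tw B ε hε (Matrix.vecMul w B.D) = 0 := by
          rw [← h2]
          exact hv.2
        funext t
        have h4 : ε t * Matrix.vecMul w B.D t = 0 := congrFun h2' t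
        have h6 : Matrix.vecMul w B.D t = (ε t * ε t) * Matrix.vecMul w B.D t := by
          rw [hε, one_mul]
        rw [h6, mul_assoc, h4, mul_zero]
        rfl
    obtain ⟨x, hx, hx'⟩ := h k h1
    refine ⟨tw B ε hε x, fun s hs => ?_, ?_⟩
    · have hs' : B.deg s + 1 ≠ k + 1 + 1 := hs
      have h7 : x s = 0 := hx s (by omega)
      show ε s * x s = 0
      rw [h7, mul_zero]
    · rw [shf_vecMul, hx']
      exact hw

section

variable {V : Type} [Fintype V] [DecidableEq V] {adj : V → V → Prop} (o : V → ℕ)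
  (ho : Function.Injective o)

/-- all homology groups of the full subcomplex on `A` vanish -/
def Acy (adj : V → V → Prop) (o : V → ℕ) (ho : Function.Injective o) (A : Finset V) : Prop :=
  ∀ k, (St adj o ho A).Zk k ≤ (St adj o ho A).Bk k

/-- the sign which makes the link a quotient complex -/
def eps (v : V) (τ : Finset V) : ℤ := ∏ u ∈ τ, (if o v < o u then -1 else 1)

omit [Fintype V] [DecidableEq V] in
theorem eps_sq (v : V) (τ : Finset V) : eps o v τ * eps o v τ = 1 := by
  unfold eps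
  rw [← Finset.prod_mul_distrib]
  refine Finset.prod_eq_one fun u _ => ?_
  split_ifs <;> norm_num

omit [Fintype V] in
theorem eps_erase (v w : V) (τ : Finset V) (hw : w ∈ τ) :
    eps o v τ * eps o v (τ.erase w) = if o v < o w then -1 else 1 := by
  have h : eps o v τ = (if o v < o w then -1 else 1) * eps o v (τ.erase w) :=
    (Finset.mul_prod_erase τ (fun u => if o v < o u then (-1 : ℤ) else 1) hw).symm
  rw [h, mul_assoc, eps_sq, mul_one]

omit [Fintype V] in
theorem clq_ins (hs : ∀ u v, adj u v → adj v u) (A L : Finset V) (v : V)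
    (hL : ∀ u, u ∈ L ↔ u ∈ A ∧ u ≠ v ∧ adj v u) (τ : Finset V) (h1 : Clq adj τ) (h2 : τ ⊆ L) :
    Clq adj (insert v τ) := by
  intro a ha b hb hab
  rcases Finset.mem_insert.1 ha with h3 | h3
  · rcases Finset.mem_insert.1 hb with h4 | h4
    · exact absurd (h3.trans h4.symm) hab
    · rw [h3]
      exact ((hL b).1 (h2 h4)).2.2
  · rcases Finset.mem_insert.1 hb with h4 | h4
    · rw [h4]
      exact hs _ _ ((hL a).1 (h2 h3)).2.2
    · exact h1 a h3 b h4 hab

omit [Fintype V] in
theorem sub_ins (A L : Finset V) (v : V) (hv : v ∈ A)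
    (hL : ∀ u, u ∈ L ↔ u ∈ A ∧ u ≠ v ∧ adj v u) (τ : Finset V) (h2 : τ ⊆ L) :
    insert v τ ⊆ A := by
  intro a ha
  rcases Finset.mem_insert.1 ha with h3 | h3
  · rw [h3]
    exact hv
  · exact ((hL a).1 (h2 h3)).1

/-- the cells without `v` -/
def cI (A : Finset V) (v : V) (s : (stW ℤ adj (A.erase v)).Cell) : (stW ℤ adj A).Cell :=
  ⟨((), s.1.2), s.2.1, s.2.2.trans (Finset.erase_subset v A)⟩

/-- the cells with `v` -/
def cR (hs : ∀ u v, adj u v → adj v u) (A L : Finset V) (v : V) (hv : v ∈ A)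
    (hL : ∀ u, u ∈ L ↔ u ∈ A ∧ u ≠ v ∧ adj v u) (s : (stW ℤ adj L).Cell) :
    (stW ℤ adj A).Cell :=
  ⟨((), insert v s.1.2), clq_ins hs A L v hL s.1.2 s.2.1 s.2.2,
    sub_ins A L v hv hL s.1.2 s.2.2⟩

omit [Fintype V] [DecidableEq V] in
theorem notMem_L {A L : Finset V} {v : V} (hL : ∀ u, u ∈ L ↔ u ∈ A ∧ u ≠ v ∧ adj v u)
    (s : (stW ℤ adj L).Cell) : v ∉ s.1.2 := fun h2 => ((hL v).1 (s.2.2 h2)).2.1 rfl

theorem D_cI (A : Finset V) (v : V) (a b : (stW ℤ adj (A.erase v)).Cell) :
    (St adj o ho A).D (cI A v a) (cI A v b) = (St adj o ho (A.erase v)).D a b := by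
  rw [st_D, st_D]
  rfl

theorem D_cR (hs : ∀ u v, adj u v → adj v u) (A L : Finset V) (v : V) (hv : v ∈ A)
    (hL : ∀ u, u ∈ L ↔ u ∈ A ∧ u ≠ v ∧ adj v u) (a b : (stW ℤ adj L).Cell) :
    (St adj o ho A).D (cR hs A L v hv hL a) (cR hs A L v hv hL b) =
      eps o v a.1.2 * eps o v b.1.2 * (St adj o ho L).D a b := by
  have ha : v ∉ a.1.2 := notMem_L hL a
  have hb : v ∉ b.1.2 := notMem_L hL b
  rw [st_D, st_D]
  show ∑ w ∈ insert v a.1.2, (if insert v b.1.2 = (insert v a.1.2).erase w then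
    sg o w ((insert v a.1.2).erase w) else 0) = _
  rw [Finset.sum_insert ha, if_neg, zero_add, Finset.mul_sum]
  · refine Finset.sum_congr rfl fun w hw => ?_
    have hwv : w ≠ v := by
      rintro rfl
      exact ha hw
    have h1 : (insert v a.1.2).erase w = insert v (a.1.2.erase w) :=
      Finset.erase_insert_of_ne hwv.symm
    have h2 : v ∉ a.1.2.erase w := fun h => ha (Finset.mem_of_mem_erase h)
    rw [h1]
    by_cases h3 : b.1.2 = a.1.2.erase w
    · rw [if_pos (by rw [h3]), if_pos h3, sg_insert o w v _ h2, h3, eps_erase o v w _ hw]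
    · rw [if_neg h3, if_neg, mul_zero]
      intro h4
      apply h3
      rw [← Finset.erase_insert hb, h4, Finset.erase_insert h2]
  · intro h4
    rw [Finset.erase_insert ha] at h4
    apply ha
    rw [← h4]
    exact Finset.mem_insert_self _ _

theorem D_c0 (hs : ∀ u v, adj u v → adj v u) (A L : Finset V) (v : V) (hv : v ∈ A)
    (hL : ∀ u, u ∈ L ↔ u ∈ A ∧ u ≠ v ∧ adj v u) (a : (stW ℤ adj (A.erase v)).Cell)
    (b : (stW ℤ adj L).Cell) :
    (St adj o ho A).D (cI A v a) (cR hs A L v hv hL b) = 0 := by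
  rw [st_D]
  refine Finset.sum_eq_zero fun w _ => ?_
  rw [if_neg]
  intro h4
  have h5 : insert v b.1.2 = a.1.2.erase w := h4
  have h6 : v ∈ a.1.2 := by
    refine Finset.mem_of_mem_erase (a := w) ?_
    rw [← h5]
    exact Finset.mem_insert_self _ _
  exact Finset.notMem_erase v A (a.2.2 h6)

omit [Fintype V] in
theorem bij_c (hs : ∀ u v, adj u v → adj v u) (A L : Finset V) (v : V) (hv : v ∈ A)
    (hL : ∀ u, u ∈ L ↔ u ∈ A ∧ u ≠ v ∧ adj v u) :
    Function.Bijective (Sum.elim (cI A v) (cR hs A L v hv hL)) := by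
  constructor
  · rintro (a | a) (b | b) h
    · have h1 : a.1.2 = b.1.2 := congrArg (fun x => x.1.2) h
      rw [show a = b from Subtype.ext (Prod.ext rfl h1)]
    · exfalso
      have h1 : a.1.2 = insert v b.1.2 := congrArg (fun x => x.1.2) h
      have h2 : v ∈ a.1.2 := by rw [h1]; exact Finset.mem_insert_self _ _
      exact Finset.notMem_erase v A (a.2.2 h2)
    · exfalso
      have h1 : insert v a.1.2 = b.1.2 := congrArg (fun x => x.1.2) h
      have h2 : v ∈ b.1.2 := by rw [← h1]; exact Finset.mem_insert_self _ _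
      exact Finset.notMem_erase v A (b.2.2 h2)
    · have h1 : insert v a.1.2 = insert v b.1.2 := congrArg (fun x => x.1.2) h
      have h3 : a.1.2 = b.1.2 := by
        rw [← Finset.erase_insert (notMem_L hL a), h1, Finset.erase_insert (notMem_L hL b)]
      rw [show a = b from Subtype.ext (Prod.ext rfl h3)]
  · rintro ⟨⟨x, σ⟩, h1, h2⟩
    by_cases hvσ : v ∈ σ
    · refine ⟨Sum.inr ⟨((), σ.erase v), WSet.clq_erase h1 v, fun u hu => ?_⟩, ?_⟩
      · obtain ⟨h3, h4⟩ := Finset.mem_erase.1 hu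
        exact (hL u).2 ⟨h2 h4, h3, h1 v hvσ u h4 (Ne.symm h3)⟩
      · exact Subtype.ext (Prod.ext rfl (Finset.insert_erase hvσ))
    · refine ⟨Sum.inl ⟨((), σ), h1, fun u hu => Finset.mem_erase.2 ⟨?_, h2 hu⟩⟩, ?_⟩
      · rintro rfl
        exact hvσ hu
      · exact Subtype.ext (Prod.ext rfl rfl)

/-- removing the vertex `v` with link `L` -/
def rmv (hs : ∀ u v, adj u v → adj v u) (A L : Finset V) (v : V) (hv : v ∈ A)
    (hL : ∀ u, u ∈ L ↔ u ∈ A ∧ u ≠ v ∧ adj v u) :
    Ext3 (St adj o ho (A.erase v)) (St adj o ho A)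
      (shf (St adj o ho L) (fun s => eps o v s.1.2) (fun s => eps_sq o v s.1.2)) where
  e := Equiv.ofBijective _ (bij_c hs A L v hv hL)
  deg' _ := rfl
  deg'' b := Finset.card_insert_of_notMem (notMem_L hL b)
  D' a b := D_cI o ho A v a b
  D'' a b := D_cR o ho hs A L v hv hL a b
  D0 a b := D_c0 o ho hs A L v hv hL a b

/-- LEMMA A: removing a vertex with acyclic link -/
theorem card_rmv (hs : ∀ u v, adj u v → adj v u) (A L : Finset V) (v : V) (hv : v ∈ A)
    (hL : ∀ u, u ∈ L ↔ u ∈ A ∧ u ≠ v ∧ adj v u) (h : Acy adj o ho L) (k : ℕ) :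
    Nat.card ((St adj o ho A).Hk k) = Nat.card ((St adj o ho (A.erase v)).Hk k) :=
  (rmv o ho hs A L v hv hL).card_eq (shf_triv _ _ _ h) k

theorem acy_rmv (hs : ∀ u v, adj u v → adj v u) (A L : Finset V) (v : V) (hv : v ∈ A)
    (hL : ∀ u, u ∈ L ↔ u ∈ A ∧ u ≠ v ∧ adj v u) (h : Acy adj o ho L) :
    Acy adj o ho A ↔ Acy adj o ho (A.erase v) := by
  unfold Acy
  refine forall_congr' fun k => ?_
  rw [← card_Hk_eq_one_iff, ← card_Hk_eq_one_iff, card_rmv o ho hs A L v hv hL h k]

/-- a point is acyclic -/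
theorem acy_single (w : V) : Acy adj o ho {w} := by
  classical
  intro k v hv
  let c1 : (stW ℤ adj {w}).Cell := ⟨((), {w}), by
    intro a ha b hb hab
    rw [Finset.mem_singleton] at ha hb
    exact absurd (ha.trans hb.symm) hab, fun u hu => hu⟩
  let c0 : (stW ℤ adj {w}).Cell := ⟨((), ∅), by
    intro a ha
    exact absurd ha (Finset.notMem_empty a), fun u hu => absurd hu (Finset.notMem_empty u)⟩
  have hcell : ∀ s : (stW ℤ adj {w}).Cell, s = c0 ∨ s = c1 := by
    intro s
    rcases Finset.subset_singleton_iff.1 s.2.2 with h | h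
    · exact Or.inl (Subtype.ext (Prod.ext rfl h))
    · exact Or.inr (Subtype.ext (Prod.ext rfl h))
  have hD1 : ∀ t : (stW ℤ adj {w}).Cell, (St adj o ho {w}).D c1 t =
      if t.1.2 = ∅ then 1 else 0 := by
    intro t
    rw [st_D]
    show ∑ u ∈ ({w} : Finset V), (if t.1.2 = ({w} : Finset V).erase u then
      sg o u (({w} : Finset V).erase u) else 0) = _
    rw [Finset.sum_singleton, Finset.erase_singleton]
    have : sg o w (∅ : Finset V) = 1 := by simp [sg]
    rw [this]
  have hsum : ∀ (x : (stW ℤ adj {w}).Cell → ℤ) (t : (stW ℤ adj {w}).Cell),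
      Matrix.vecMul x (St adj o ho {w}).D t = x c1 * (if t.1.2 = ∅ then 1 else 0) := by
    intro x t
    show ∑ s : (stW ℤ adj {w}).Cell, x s * (St adj o ho {w}).D s t = _
    rw [Finset.sum_eq_single c1, hD1]
    · intro s _ hs
      rcases hcell s with h | h
      · rw [h]
        have : (St adj o ho {w}).D c0 t = 0 := by
          rw [st_D]
          exact Finset.sum_empty
        rw [this, mul_zero]
      · exact absurd h hs
    · intro h
      exact absurd (Finset.mem_univ _) h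
  have h1 : v c1 = 0 := by
    have h2 : v c1 * (if c0.1.2 = ∅ then 1 else 0) = 0 :=
      (hsum v c0).symm.trans (congrFun hv.2 c0)
    simpa [c0] using h2
  by_cases hk : k = 0
  · subst hk
    let x : (stW ℤ adj {w}).Cell → ℤ := fun s => if s = c1 then v c0 else 0
    have hx1 : x c1 = v c0 := if_pos rfl
    refine ⟨x, fun s hs => ?_, ?_⟩
    · rcases hcell s with h | h
      · have h3 : ¬ c0 = c1 := by
          intro h4
          have h5 : (∅ : Finset V) = {w} := congrArg (fun s : (stW ℤ adj {w}).Cell => s.1.2) h4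
          exact Finset.singleton_ne_empty w h5.symm
        rw [h]
        exact if_neg h3
      · exfalso
        apply hs
        rw [h]
        exact Finset.card_singleton w
    · funext t
      refine (hsum x t).trans ?_
      rw [hx1]
      rcases hcell t with h | h
      · rw [h]
        simp [c0]
      · rw [h, h1]
        simp [c1]
  · have h2 : v = 0 := by
      funext s
      rcases hcell s with h | h
      · rw [h]
        exact hv.1 c0 (fun h3 => hk h3.symm)
      · rw [h]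
        exact h1
    rw [h2]
    exact Submodule.zero_mem _

/-- LEMMA B: a cone is acyclic -/
theorem acy_cone (hs : ∀ u v, adj u v → adj v u) (A : Finset V) (w : V) (hw : w ∈ A)
    (h : ∀ u ∈ A, u ≠ w → adj w u) : Acy adj o ho A := by
  classical
  induction' hn : A.card using Nat.strong_induction_on with n ih generalizing A
  by_cases h1 : ∃ v ∈ A, v ≠ w
  · obtain ⟨v, hv, hvw⟩ := h1
    have hL : ∀ u, u ∈ A.filter (fun u => u ≠ v ∧ adj v u) ↔ u ∈ A ∧ u ≠ v ∧ adj v u :=
      fun u => Finset.mem_filter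
    have hLc : (A.filter (fun u => u ≠ v ∧ adj v u)).card < n := by
      rw [← hn]
      refine Finset.card_lt_card ⟨Finset.filter_subset _ _, fun h2 => ?_⟩
      exact ((hL v).1 (h2 hv)).2.1 rfl
    have hLa : Acy adj o ho (A.filter (fun u => u ≠ v ∧ adj v u)) :=
      ih _ hLc _ ((hL w).2 ⟨hw, hvw.symm, hs _ _ (h v hv hvw)⟩)
        (fun u hu huw => h u ((hL u).1 hu).1 huw) rfl
    rw [acy_rmv o ho hs A _ v hv hL hLa]
    exact ih _ (by rw [← hn]; exact Finset.card_erase_lt_of_mem hv) _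
      (Finset.mem_erase.2 ⟨hvw.symm, hw⟩) (fun u hu huw => h u (Finset.mem_of_mem_erase hu) huw) rfl
  · push Not at h1
    have h2 : A = {w} := by
      ext u
      rw [Finset.mem_singleton]
      exact ⟨h1 u, fun h3 => h3 ▸ hw⟩
    rw [h2]
    exact acy_single o ho w

/-- removing a dominated vertex -/
theorem card_dom (hs : ∀ u v, adj u v → adj v u) (A : Finset V) (v w : V) (hv : v ∈ A)
    (hw : w ∈ A) (hvw : w ≠ v) (h : adj v w)
    (hd : ∀ u ∈ A, u ≠ v → u ≠ w → adj v u → adj w u) (k : ℕ) :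
    Nat.card ((St adj o ho A).Hk k) = Nat.card ((St adj o ho (A.erase v)).Hk k) := by
  classical
  have hL : ∀ u, u ∈ A.filter (fun u => u ≠ v ∧ adj v u) ↔ u ∈ A ∧ u ≠ v ∧ adj v u :=
    fun u => Finset.mem_filter
  refine card_rmv o ho hs A _ v hv hL (acy_cone o ho hs _ w ((hL w).2 ⟨hw, hvw, h⟩) ?_) k
  intro u hu huw
  obtain ⟨h1, h2, h3⟩ := (hL u).1 hu
  exact hd u h1 h2 huw h3

end

end Pool.LU
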