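import Pool.Agent.H72.LU.Dom

/-!
Project LU, part Y: a checker (bit masks) for the acyclicity of full subcomplexes and for the
removal of vertices with acyclic links.
-/

set_option autoImplicit false

open scoped BigOperators
open Pool.H3.L2

noncomputable section

namespace Pool.LU

/-- Certificates of acyclicity: a cone with apex `w`; removal of the vertex `v`, dominated by `w`;
removal of the vertex `v`, whose link is acyclic by the first certificate. -/
inductive Cert where
  | cone (w : ℕ) : Cert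
  | dom (v w : ℕ) (c : Cert) : Cert
  | lnk (v : ℕ) (c d : Cert) : Cert

/-- Certificates of reductions. -/
inductive Red where
  | stop : Red
  | dom (v w : ℕ) (c : Red) : Red
  | lnk (v : ℕ) (c : Cert) (d : Red) : Red

/-- `a` is contained in `b` -/
def subM (a b : ℕ) : Bool := (a ||| b) == b

section chk

variable (N : ℕ) (nb : ℕ → ℕ)

/-- `v` is dominated by `w` in `m` -/
def domB (m v w : ℕ) : Bool :=
  m.testBit v && (m.testBit w && ((decide (v < N) && decide (w < N)) &&
    ((nb v).testBit w && ((w != v) && subM (m &&& nb v) (nb w ||| 2 ^ w)))))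

/-- the checker -/
def check : Cert → ℕ → Bool
  | .cone w, m => m.testBit w && (decide (w < N) && subM m (nb w ||| 2 ^ w))
  | .dom v w c, m => domB N nb m v w && check c (m ^^^ 2 ^ v)
  | .lnk v c d, m => m.testBit v && (decide (v < N) && (check c (m &&& nb v) &&
      check d (m ^^^ 2 ^ v)))

/-- the checker of reductions from `m` to `m'` -/
def checkR (m' : ℕ) : Red → ℕ → Bool
  | .stop, m => m == m'
  | .dom v w c, m => domB N nb m v w && checkR m' c (m ^^^ 2 ^ v)
  | .lnk v c d, m => m.testBit v && (decide (v < N) && (check N nb c (m &&& nb v) &&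
      checkR m' d (m ^^^ 2 ^ v)))

/-- the set of the mask `m` -/
def FS (m : ℕ) : Finset (Fin N) := Finset.univ.filter (fun v => m.testBit v.1 = true)

variable {N nb}

theorem mem_FS (m : ℕ) (v : Fin N) : v ∈ FS N m ↔ m.testBit v.1 = true := by
  simp [FS]

theorem subM_iff (a b : ℕ) (h : subM a b = true) (i : ℕ) (hi : a.testBit i = true) :
    b.testBit i = true := by
  unfold subM at h
  rw [beq_iff_eq] at h
  rw [← h, Nat.testBit_or, hi, Bool.true_or]

theorem testBit_ins (b w i : ℕ) (h : (b ||| 2 ^ w).testBit i = true) :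
    i = w ∨ b.testBit i = true := by
  rw [Nat.testBit_or, Bool.or_eq_true] at h
  rcases h with h | h
  · exact Or.inr h
  · left
    rw [Nat.testBit_two_pow] at h
    simpa using (decide_eq_true_iff.1 h).symm

theorem FS_erase (m : ℕ) (v : Fin N) (hv : m.testBit v.1 = true) :
    FS N (m ^^^ 2 ^ v.1) = (FS N m).erase v := by
  ext u
  rw [mem_FS, Finset.mem_erase, mem_FS, Nat.testBit_xor, Nat.testBit_two_pow]
  by_cases h : v.1 = u.1
  · have h1 : v = u := Fin.ext h
    subst h1
    simp [hv]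
  · have h1 : u ≠ v := fun h2 => h (by rw [h2])
    simp [h, h1]

variable {adj : Fin N → Fin N → Prop} (o : Fin N → ℕ) (ho : Function.Injective o)
  (hs : ∀ u v, adj u v → adj v u) (hi : ∀ v, ¬ adj v v)
  (hn : ∀ u v : Fin N, adj u v ↔ (nb u.1).testBit v.1 = true)

include hn hi in
theorem FS_link (m : ℕ) (v : Fin N) (u : Fin N) :
    u ∈ FS N (m &&& nb v.1) ↔ u ∈ FS N m ∧ u ≠ v ∧ adj v u := by
  rw [mem_FS, mem_FS, Nat.testBit_and, Bool.and_eq_true, hn]
  constructor
  · rintro ⟨h1, h2⟩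
    refine ⟨h1, ?_, h2⟩
    rintro rfl
    exact hi u ((hn u u).2 h2)
  · rintro ⟨h1, -, h2⟩
    exact ⟨h1, h2⟩

include hs hn in
theorem domB_sound (m v w : ℕ) (h : domB N nb m v w = true) : ∃ v' : Fin N, v'.1 = v ∧
    m.testBit v = true ∧ ∀ k, Nat.card ((St adj o ho (FS N m)).Hk k) =
      Nat.card ((St adj o ho ((FS N m).erase v')).Hk k) := by
  unfold domB at h
  simp only [Bool.and_eq_true, decide_eq_true_eq, bne_iff_ne] at h
  obtain ⟨h1, h2, ⟨h3, h4⟩, h5, h6, h7⟩ := h
  refine ⟨⟨v, h3⟩, rfl, h1, fun k => ?_⟩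
  refine card_dom o ho hs (FS N m) ⟨v, h3⟩ ⟨w, h4⟩ ((mem_FS _ _).2 h1) ((mem_FS _ _).2 h2)
    (fun h => h6 (congrArg Fin.val h)) ((hn _ _).2 h5) ?_ k
  intro u hu _ huw hvu
  have h8 := subM_iff _ _ h7 u.1 (by
    rw [Nat.testBit_and, Bool.and_eq_true]
    exact ⟨(mem_FS _ _).1 hu, (hn _ _).1 hvu⟩)
  rcases testBit_ins _ _ _ h8 with h9 | h9
  · exact absurd (Fin.ext h9) huw
  · exact (hn _ _).2 h9

include hs hi hn in
theorem check_sound (c : Cert) (m : ℕ) (h : check N nb c m = true) : Acy adj o ho (FS N m) := by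
  induction c generalizing m with
  | cone w =>
    simp only [check, Bool.and_eq_true, decide_eq_true_eq] at h
    obtain ⟨h1, h2, h3⟩ := h
    refine acy_cone o ho hs (FS N m) ⟨w, h2⟩ ((mem_FS _ _).2 h1) fun u hu huw => ?_
    rcases testBit_ins _ _ _ (subM_iff _ _ h3 u.1 ((mem_FS _ _).1 hu)) with h9 | h9
    · exact absurd (Fin.ext h9) huw
    · exact (hn _ _).2 h9
  | dom v w c ih =>
    simp only [check, Bool.and_eq_true] at h
    obtain ⟨h1, h2⟩ := h
    obtain ⟨v', rfl, h3, h4⟩ := domB_sound o ho hs hn m v w h1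
    have h5 := ih _ h2
    rw [FS_erase m v' h3] at h5
    intro k
    rw [← card_Hk_eq_one_iff, h4, card_Hk_eq_one_iff]
    exact h5 k
  | lnk v c d ihc ihd =>
    simp only [check, Bool.and_eq_true, decide_eq_true_eq] at h
    obtain ⟨h1, h2, h3, h4⟩ := h
    have h5 := ihd _ h4
    have h6 := FS_erase m (⟨v, h2⟩ : Fin N) h1
    rw [show m ^^^ 2 ^ v = m ^^^ 2 ^ (⟨v, h2⟩ : Fin N).1 from rfl, h6] at h5
    exact (acy_rmv o ho hs (FS N m) (FS N (m &&& nb v)) ⟨v, h2⟩ ((mem_FS _ _).2 h1)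
      (FS_link hi hn m ⟨v, h2⟩) (ihc _ h3)).2 h5

include hs hi hn in
theorem checkR_sound (m' : ℕ) (c : Red) (m : ℕ) (h : checkR N nb m' c m = true) (k : ℕ) :
    Nat.card ((St adj o ho (FS N m)).Hk k) = Nat.card ((St adj o ho (FS N m')).Hk k) := by
  induction c generalizing m with
  | stop =>
    simp only [checkR, beq_iff_eq] at h
    rw [h]
  | dom v w c ih =>
    simp only [checkR, Bool.and_eq_true] at h
    obtain ⟨h1, h2⟩ := h
    obtain ⟨v', rfl, h3, h4⟩ := domB_sound o ho hs hn m v w h1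
    have h5 := ih _ h2
    rw [FS_erase m v' h3] at h5
    rw [h4, h5]
  | lnk v c d ih =>
    simp only [checkR, Bool.and_eq_true, decide_eq_true_eq] at h
    obtain ⟨h1, h2, h3, h4⟩ := h
    have h5 := ih _ h4
    have h6 := FS_erase m (⟨v, h2⟩ : Fin N) h1
    rw [show m ^^^ 2 ^ v = m ^^^ 2 ^ (⟨v, h2⟩ : Fin N).1 from rfl, h6] at h5
    rw [card_rmv o ho hs (FS N m) (FS N (m &&& nb v)) ⟨v, h2⟩ ((mem_FS _ _).2 h1)
      (FS_link hi hn m ⟨v, h2⟩) (check_sound o ho hs hi hn c _ h3) k, h5]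

end chk

end Pool.LU
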