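import Pool.Agent.H99.LU.CStmts

/-!
Project LU, part C, module EIG: the dimension of the space of the functions which are antisymmetric
under the generators of a clique.
-/

set_option autoImplicit false

open scoped BigOperators

noncomputable section

namespace Pool.LU

section

variable (F : Type) [Field F] {V : Type} {adj : V → V → Prop} (X : XSet V adj)

/-- The functions which are antisymmetric under the generators in `σ`. -/
def Eg (σ : Finset V) : Submodule F (X.X → F) where
  carrier := {f | ∀ v ∈ σ, ∀ y, f (X.ρ v y) = - f y}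
  add_mem' := by
    intro f g hf hg v hv y
    simp only [Pi.add_apply, hf v hv y, hg v hv y, neg_add]
  zero_mem' := fun v hv y => by simp
  smul_mem' := by
    intro c f hf v hv y
    simp only [Pi.smul_apply, hf v hv y, smul_neg]

theorem mem_Eg (σ : Finset V) (f : X.X → F) :
    f ∈ Eg F X σ ↔ ∀ v ∈ σ, ∀ y, f (X.ρ v y) = - f y := Iff.rfl

/-- the sign as an element of `F` -/
def cs (v : V) (y : X.X) : F := (((X.χ v y : ℤˣ) : ℤ) : F)

theorem cs_sq (v : V) (y : X.X) : cs F X v y * cs F X v y = 1 := by
  unfold cs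
  rw [← Int.cast_mul, Int.units_coe_mul_self, Int.cast_one]

theorem cs_self (v : V) (y : X.X) : cs F X v (X.ρ v y) = - cs F X v y := by
  unfold cs
  rw [X.χ_self, Units.val_neg, Int.cast_neg]

theorem cs_ne (u v : V) (h : u ≠ v) (y : X.X) : cs F X u (X.ρ v y) = cs F X u y := by
  unfold cs
  rw [X.χ_ne u v h]

variable [DecidableEq V]

theorem two_mul_finrank_Eg (h2 : (2 : F) ≠ 0) (v : V)
    (σ : Finset V) (hv : v ∉ σ) (hc : Clq adj (insert v σ)) :
    2 * Module.finrank F ↥(Eg F X (insert v σ)) = Module.finrank F ↥(Eg F X σ) := by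
  have hcomm : ∀ u ∈ σ, ∀ y, X.ρ v (X.ρ u y) = X.ρ u (X.ρ v y) := by
    intro u hu y
    refine X.comm v u (hc v (Finset.mem_insert_self _ _) u (Finset.mem_insert_of_mem hu) ?_) y
    rintro rfl
    exact hv hu
  have hne : ∀ u ∈ σ, v ≠ u := by
    rintro u hu rfl
    exact hv hu
  let e : ↥(Eg F X σ) ≃ₗ[F] ↥(Eg F X (insert v σ)) × ↥(Eg F X (insert v σ)) :=
    { toFun := fun f =>
        (⟨fun y => f.1 y - f.1 (X.ρ v y), by
          intro u hu y
          rcases Finset.mem_insert.1 hu with rfl | hu
          · show f.1 (X.ρ u y) - f.1 (X.ρ u (X.ρ u y)) = _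
            rw [X.ρρ]
            ring
          · show f.1 (X.ρ u y) - f.1 (X.ρ v (X.ρ u y)) = _
            rw [hcomm u hu, f.2 u hu, f.2 u hu]
            ring⟩,
         ⟨fun y => cs F X v y * (f.1 y + f.1 (X.ρ v y)), by
          intro u hu y
          rcases Finset.mem_insert.1 hu with rfl | hu
          · show cs F X u (X.ρ u y) * (f.1 (X.ρ u y) + f.1 (X.ρ u (X.ρ u y))) = _
            rw [X.ρρ, cs_self]
            ring
          · show cs F X v (X.ρ u y) * (f.1 (X.ρ u y) + f.1 (X.ρ v (X.ρ u y))) = _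
            rw [hcomm u hu, f.2 u hu, f.2 u hu, cs_ne F X v u (hne u hu)]
            ring⟩)
      map_add' := by
        intro f g
        refine Prod.ext (Subtype.ext ?_) (Subtype.ext ?_)
        · funext y
          show f.1 y + g.1 y - (f.1 (X.ρ v y) + g.1 (X.ρ v y)) =
            (f.1 y - f.1 (X.ρ v y)) + (g.1 y - g.1 (X.ρ v y))
          ring
        · funext y
          show cs F X v y * (f.1 y + g.1 y + (f.1 (X.ρ v y) + g.1 (X.ρ v y))) =
            cs F X v y * (f.1 y + f.1 (X.ρ v y)) + cs F X v y * (g.1 y + g.1 (X.ρ v y))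
          ring
      map_smul' := by
        intro c f
        refine Prod.ext (Subtype.ext ?_) (Subtype.ext ?_)
        · funext y
          show c * f.1 y - c * f.1 (X.ρ v y) = c * (f.1 y - f.1 (X.ρ v y))
          ring
        · funext y
          show cs F X v y * (c * f.1 y + c * f.1 (X.ρ v y)) =
            c * (cs F X v y * (f.1 y + f.1 (X.ρ v y)))
          ring
      invFun := fun p => ⟨fun y => (2 : F)⁻¹ * (p.1.1 y + cs F X v y * p.2.1 y), by
        intro u hu y
        show (2 : F)⁻¹ * (p.1.1 (X.ρ u y) + cs F X v (X.ρ u y) * p.2.1 (X.ρ u y)) = _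
        rw [p.1.2 u (Finset.mem_insert_of_mem hu), p.2.2 u (Finset.mem_insert_of_mem hu),
          cs_ne F X v u (hne u hu)]
        ring⟩
      left_inv := by
        intro f
        refine Subtype.ext ?_
        funext y
        show (2 : F)⁻¹ * (f.1 y - f.1 (X.ρ v y) +
          cs F X v y * (cs F X v y * (f.1 y + f.1 (X.ρ v y)))) = f.1 y
        rw [← mul_assoc, cs_sq, one_mul]
        field_simp
        ring
      right_inv := by
        intro p
        have h1 : ∀ y, p.1.1 (X.ρ v y) = - p.1.1 y := fun y =>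
          p.1.2 v (Finset.mem_insert_self _ _) y
        have h3 : ∀ y, p.2.1 (X.ρ v y) = - p.2.1 y := fun y =>
          p.2.2 v (Finset.mem_insert_self _ _) y
        refine Prod.ext (Subtype.ext ?_) (Subtype.ext ?_)
        · funext y
          show (2 : F)⁻¹ * (p.1.1 y + cs F X v y * p.2.1 y) -
            (2 : F)⁻¹ * (p.1.1 (X.ρ v y) + cs F X v (X.ρ v y) * p.2.1 (X.ρ v y)) = p.1.1 y
          rw [h1, h3, cs_self]
          field_simp
          ring
        · funext y
          show cs F X v y * ((2 : F)⁻¹ * (p.1.1 y + cs F X v y * p.2.1 y) +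
            (2 : F)⁻¹ * (p.1.1 (X.ρ v y) + cs F X v (X.ρ v y) * p.2.1 (X.ρ v y))) = p.2.1 y
          rw [h1, h3, cs_self]
          have h4 := cs_sq F X v y
          have h5 : (2 : F)⁻¹ * 2 = 1 := inv_mul_cancel₀ h2
          linear_combination (p.2.1 y) * ((2 : F)⁻¹ * 2) * h4 + (p.2.1 y) * h5 }
  rw [e.finrank_eq, Module.finrank_prod]
  ring

theorem finrank_Eg (h2 : (2 : F) ≠ 0) (σ : Finset V)
    (hc : Clq adj σ) : 2 ^ σ.card * Module.finrank F ↥(Eg F X σ) = Fintype.card X.X := by
  induction σ using Finset.induction_on with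
  | empty =>
    have h : Eg F X ∅ = ⊤ := by
      rw [eq_top_iff]
      intro f _ v hv
      exact absurd hv (Finset.notMem_empty v)
    rw [h, finrank_top, Module.finrank_fintype_fun_eq_card, Finset.card_empty, pow_zero, one_mul]
  | insert v σ hv ih =>
    have h := ih fun a ha b hb hab =>
      hc a (Finset.mem_insert_of_mem ha) b (Finset.mem_insert_of_mem hb) hab
    rw [Finset.card_insert_of_notMem hv, pow_succ, mul_assoc,
      two_mul_finrank_Eg F X h2 v σ hv hc, h]

end

theorem eig : EIGStmt := by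
  intro F _ h2 V _ _ adj _ X σ hc
  exact ⟨Eg F X σ, fun f => Iff.rfl, finrank_Eg F X h2 σ hc⟩

end Pool.LU
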