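import Pool.Agent.H72.LU.YData
import Pool.Agent.H72.LU.YFil

/-!
Project LU, part Y: the certificate, from the homology of the two cores.
-/

set_option autoImplicit false

open scoped BigOperators
open Pool.H3.L2

noncomputable section

namespace Pool.LU

namespace Y36

/-- the colour of a vertex -/
def kap (v : Fin 36) : Fin 5 := colL.getD v.1 0

/-- the sign of a vertex -/
def sgn (v : Fin 36) : ℤˣ := if sgL.getD v.1 false then 1 else -1

/-- the graph of `T_Y` has the data `adjY` -/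
def IsY (adj : Fin 36 → Fin 36 → Prop) : Prop := ∀ u v, adj u v ↔ adjY u v = true

theorem adjY_symm : ∀ u v : Fin 36, adjY u v = true → adjY v u = true := by decide +kernel

theorem adjY_irrefl : ∀ v : Fin 36, adjY v v = false := by decide +kernel

theorem adjY_kap : ∀ u v : Fin 36, adjY u v = true → colL.getD u.1 0 ≠ colL.getD v.1 0 := by
  decide +kernel

/-- the masks of the states -/
theorem maskL_ok : ∀ f : Fin 32, ∀ v : Fin 36,
    (maskL.getD f.1 0).testBit v.1 = (sgL.getD v.1 false == f.1.testBit (colL.getD v.1 0).1) := by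
  decide +kernel

/-- sign vectors from bits -/
def bb (f : ℕ) (c : Fin 5) : ℤˣ := if f.testBit c.1 then -1 else 1

/-- bit to number -/
def nm (b : ℤˣ) : Bool := decide (b = -1)

theorem exists_bb (b : Fin 5 → ℤˣ) : ∃ f : Fin 32, b = bb f.1 := by
  have key : ∀ x0 x1 x2 x3 x4 : Bool, ∃ f : Fin 32, f.1.testBit 0 = x0 ∧ f.1.testBit 1 = x1 ∧
      f.1.testBit 2 = x2 ∧ f.1.testBit 3 = x3 ∧ f.1.testBit 4 = x4 := by decide +kernel
  obtain ⟨f, h0, h1, h2, h3, h4⟩ := key (nm (b 0)) (nm (b 1)) (nm (b 2)) (nm (b 3)) (nm (b 4))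
  have hu : ∀ x : ℤˣ, x = if nm x then -1 else 1 := by
    intro x
    rcases Int.units_eq_one_or x with h | h <;> rw [h] <;> decide
  refine ⟨f, funext fun c => ?_⟩
  rw [hu (b c)]
  unfold bb
  fin_cases c
  · show _ = if f.1.testBit 0 = true then (-1 : ℤˣ) else 1
    rw [h0]
    rfl
  · show _ = if f.1.testBit 1 = true then (-1 : ℤˣ) else 1
    rw [h1]
    rfl
  · show _ = if f.1.testBit 2 = true then (-1 : ℤˣ) else 1
    rw [h2]
    rfl
  · show _ = if f.1.testBit 3 = true then (-1 : ℤˣ) else 1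
    rw [h3]
    rfl
  · show _ = if f.1.testBit 4 = true then (-1 : ℤˣ) else 1
    rw [h4]
    rfl

theorem stA_eq (f : Fin 32) : stA kap sgn (bb f.1) = FS 36 (maskL.getD f.1 0) := by
  ext v
  have h1 := maskL_ok f v
  rw [mem_FS, h1]
  unfold stA
  rw [Finset.mem_filter]
  unfold sgn bb kap
  rcases h2 : sgL.getD v.1 false <;>
    rcases h3 : f.1.testBit (colL.getD v.1 0).1 <;> simp

variable {adj : Fin 36 → Fin 36 → Prop} (o : Fin 36 → ℕ) (ho : Function.Injective o)

/-- the statement on the two cores -/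
def CoreStmt (o : Fin 36 → ℕ) (ho : Function.Injective o) : Prop :=
  ∀ (adj : Fin 36 → Fin 36 → Prop), IsY adj → ∀ m, m = core10 ∨ m = core21 →
    (∀ k, k ≠ 2 → Nat.card ((St adj o ho (FS 36 m)).Hk k) = 1) ∧
    Nat.card ((St adj o ho (FS 36 m)).Hk 2) = 2

theorem states (hY : IsY adj) (f : Fin 32) :
    Acy adj o ho (FS 36 (maskL.getD f.1 0)) ∨
      ∃ m, (m = core10 ∨ m = core21) ∧ ∀ k, Nat.card ((St adj o ho (FS 36 (maskL.getD f.1 0))).Hk k) =
        Nat.card ((St adj o ho (FS 36 m)).Hk k) := by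
  have hs : ∀ u v, adj u v → adj v u := fun u v h => (hY v u).2 (adjY_symm u v ((hY u v).1 h))
  have hi : ∀ v, ¬ adj v v := by
    intro v h
    have h1 := (hY v v).1 h
    rw [adjY_irrefl v] at h1
    exact Bool.false_ne_true h1
  have hn : ∀ u v : Fin 36, adj u v ↔ (nbf u.1).testBit v.1 = true := hY
  have hA := fun c m h => check_sound (nb := nbf) o ho hs hi hn c m h
  have hR := fun m' c m h => checkR_sound (nb := nbf) o ho hs hi hn m' c m h
  fin_cases f
  · exact Or.inl (hA _ _ ck0)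
  · exact Or.inl (hA _ _ ck1)
  · exact Or.inl (hA _ _ ck2)
  · exact Or.inl (hA _ _ ck3)
  · exact Or.inl (hA _ _ ck4)
  · exact Or.inl (hA _ _ ck5)
  · exact Or.inl (hA _ _ ck6)
  · exact Or.inl (hA _ _ ck7)
  · exact Or.inl (hA _ _ ck8)
  · exact Or.inl (hA _ _ ck9)
  · exact Or.inr ⟨core10, Or.inl rfl, hR _ _ _ ck10⟩
  · exact Or.inl (hA _ _ ck11)
  · exact Or.inl (hA _ _ ck12)
  · exact Or.inl (hA _ _ ck13)
  · exact Or.inl (hA _ _ ck14)
  · exact Or.inl (hA _ _ ck15)
  · exact Or.inl (hA _ _ ck16)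
  · exact Or.inl (hA _ _ ck17)
  · exact Or.inl (hA _ _ ck18)
  · exact Or.inl (hA _ _ ck19)
  · exact Or.inl (hA _ _ ck20)
  · exact Or.inr ⟨core21, Or.inr rfl, hR _ _ _ ck21⟩
  · exact Or.inl (hA _ _ ck22)
  · exact Or.inl (hA _ _ ck23)
  · exact Or.inl (hA _ _ ck24)
  · exact Or.inl (hA _ _ ck25)
  · exact Or.inl (hA _ _ ck26)
  · exact Or.inl (hA _ _ ck27)
  · exact Or.inl (hA _ _ ck28)
  · exact Or.inl (hA _ _ ck29)
  · exact Or.inl (hA _ _ ck30)
  · exact Or.inl (hA _ _ ck31)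

theorem ycert_of (hcore : CoreStmt o ho) : Nonempty YCert := by
  obtain ⟨P, hP, hadj⟩ := y36_poly
  have key : ∀ b : Fin 5 → ℤˣ, (∀ k, k ≠ 2 → Nat.card ((St P.adj o ho (stA kap sgn b)).Hk k) = 1) ∧
      (Nat.card ((St P.adj o ho (stA kap sgn b)).Hk 2) = 1 ∨
        Nat.card ((St P.adj o ho (stA kap sgn b)).Hk 2) = 2) := by
    intro b
    obtain ⟨f, rfl⟩ := exists_bb b
    rw [stA_eq f]
    rcases states o ho hadj f with h | ⟨m, hm, h⟩
    · exact ⟨fun k _ => (card_Hk_eq_one_iff _ k).2 (h k), Or.inl ((card_Hk_eq_one_iff _ 2).2 (h 2))⟩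
    · obtain ⟨h1, h2⟩ := hcore P.adj hadj m hm
      exact ⟨fun k hk => (h k).trans (h1 k hk), Or.inr ((h 2).trans h2)⟩
  have hbad : Nat.card ((St P.adj o ho (stA kap sgn (bb 10))).Hk 2) = 2 := by
    have h0 := stA_eq 10
    have h3 : ((10 : Fin 32) : ℕ) = 10 := rfl
    rw [h3] at h0
    rw [h0]
    have hs : ∀ u v, P.adj u v → P.adj v u :=
      fun u v h => (hadj v u).2 (adjY_symm u v ((hadj u v).1 h))
    have hi : ∀ v, ¬ P.adj v v := by
      intro v h
      have h1 := (hadj v v).1 h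
      rw [adjY_irrefl v] at h1
      exact Bool.false_ne_true h1
    exact (checkR_sound (nb := nbf) o ho hs hi hadj core10 _ _ ck10 2).trans
      (hcore P.adj hadj core10 (Or.inl rfl)).2
  exact ⟨{
    V := Fin 36
    P := P
    good := hP
    κ := kap
    s := sgn
    proper := fun u v h => adjY_kap u v ((hadj u v).1 h)
    mix := ⟨0, 15, by decide, by decide⟩
    surj := by decide +kernel
    o := o
    ho := ho
    triv := fun b k hk => (card_eq_one_iff_subs _ _).1 ((key b).1 k hk)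
    fin := fun b => by
      have h1 : Nat.card ((St P.adj o ho (stA kap sgn b)).Hk 2) ≠ 0 := by
        rcases (key b).2 with h | h <;> rw [h] <;> norm_num
      exact (Nat.card_ne_zero.1 h1).2
    bad := ⟨bb 10, by rw [hbad]; norm_num⟩ }⟩

end Y36

end Pool.LU
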