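import Pool.Agent.H72.LU.DomChk
import Pool.Agent.H81.LU.YStmts
import Pool.Agent.H41.LU.Y36

/-!
Project LU, part Y: the states of the complex with 36 vertices (certificates of helper81).
-/

set_option autoImplicit false
set_option maxRecDepth 100000

open scoped BigOperators
open Pool.H3.L2

noncomputable section

namespace Pool.LU

namespace Y36

/-- the neighbours -/
def nbf (v : ℕ) : ℕ := nbr.getD v 0

/-- the colours -/
def colL : List (Fin 5) := [0, 2, 3, 3, 4, 1, 3, 2, 3, 2, 1, 1, 2, 4, 1, 0, 0, 1, 4, 1, 2, 3, 2, 0, 0, 2, 2, 4, 3, 3, 1, 4, 1, 4, 0, 2]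

/-- the signs -/
def sgL : List Bool := [false, false, true, false, true, false, true, true, false, true, false, true, false, false, true, true, true, true, false, false, true, true, true, false, true, true, false, false, false, false, false, true, false, true, true, false]

/-- the masks of the states -/
def maskL : List ℕ := [40744269099, 57932625194, 35375184139, 52563540234, 6356215721, 23544571816, 987130761, 18175486856, 39941059687, 57129415782, 34571974727, 51760330822, 5553006309, 22741362404, 183921349, 17372277444, 51347199291, 68535555386, 45978114331, 63166470426, 16959145913, 34147502008, 11590060953, 28778417048, 50543989879, 67732345974, 45174904919, 62363261014, 16155936501, 33344292596, 10786851541, 27975207636]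

/-- the cores -/
def core10 : ℕ := 34571958343

/-- the cores -/
def core21 : ℕ := 16682353432

/-- certificate of state 0 -/
def ct0 : Cert :=
  (.dom 1 19 (.dom 5 26 (.dom 8 35 (.dom 10 12 (.dom 28 18 (.dom 12 29 (.dom 26 3 (.dom 23 19 (.dom 3 0 (.dom 18 0 (.dom 27 0 (.dom 30 0 (.dom 29 19 (.cone 35))))))))))))))

/-- certificate of state 1 -/
def ct1 : Cert :=
  (.dom 5 26 (.dom 10 12 (.dom 24 13 (.dom 28 18 (.dom 12 29 (.dom 26 3 (.dom 16 30 (.dom 32 8 (.dom 34 19 (.dom 35 8 (.dom 8 1 (.dom 13 1 (.dom 15 1 (.dom 1 19 (.dom 27 3 (.cone 18))))))))))))))))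

/-- certificate of state 2 -/
def ct2 : Cert :=
  (.dom 14 23 (.dom 17 1 (.dom 28 18 (.dom 12 29 (.dom 26 3 (.dom 35 8 (.dom 0 1 (.dom 8 1 (.dom 13 29 (.dom 23 1 (.dom 27 3 (.cone 18))))))))))))

/-- certificate of state 3 -/
def ct3 : Cert :=
  (.dom 12 11 (.dom 14 15 (.dom 1 17 (.dom 16 11 (.dom 18 15 (.dom 24 13 (.dom 13 15 (.dom 26 11 (.dom 27 34 (.dom 28 11 (.dom 29 15 (.dom 11 3 (.dom 3 17 (.cone 8))))))))))))))

/-- certificate of state 4 -/
def ct4 : Cert :=
  (.dom 5 25 (.dom 7 8 (.dom 10 22 (.dom 22 19 (.dom 23 19 (.dom 3 0 (.dom 18 0 (.dom 25 0 (.dom 27 0 (.dom 20 29 (.dom 28 0 (.dom 30 0 (.dom 9 32 (.dom 29 19 (.cone 8)))))))))))))))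

/-- certificate of state 5 -/
def ct5 : Cert :=
  (.dom 5 25 (.dom 7 8 (.dom 10 22 (.dom 16 30 (.dom 24 13 (.dom 28 18 (.dom 22 29 (.dom 25 3 (.dom 34 27 (.lnk 9 (.dom 13 15 (.dom 15 32 (.cone 27))) (.dom 30 20 (.dom 32 8 (.lnk 8 (.dom 15 13 (.cone 19)) (.dom 13 29 (.dom 15 18 (.dom 27 3 (.cone 18)))))))))))))))))

/-- certificate of state 6 -/
def ct6 : Cert :=
  (.dom 7 8 (.dom 14 23 (.dom 28 18 (.dom 22 29 (.dom 25 3 (.lnk 9 (.dom 0 27 (.cone 11)) (.dom 0 17 (.dom 11 20 (.dom 20 17 (.dom 27 17 (.dom 3 18 (.dom 8 13 (.cone 29)))))))))))))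

/-- certificate of state 7 -/
def ct7 : Cert :=
  (.dom 7 8 (.dom 9 11 (.dom 14 15 (.dom 8 17 (.dom 13 29 (.dom 15 18 (.dom 17 20 (.dom 20 11 (.dom 24 29 (.dom 22 18 (.dom 18 16 (.dom 3 27 (.dom 28 16 (.dom 25 27 (.cone 11)))))))))))))))

/-- certificate of state 8 -/
def ct8 : Cert :=
  (.dom 1 19 (.dom 5 26 (.dom 10 12 (.dom 30 0 (.dom 6 32 (.dom 13 21 (.dom 12 0 (.dom 21 35 (.dom 27 2 (.dom 26 23 (.dom 2 35 (.dom 18 19 (.cone 35)))))))))))))

/-- certificate of state 9 -/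
def ct9 : Cert :=
  (.dom 5 26 (.dom 10 12 (.dom 24 13 (.dom 30 16 (.dom 34 27 (.lnk 6 (.dom 13 15 (.dom 15 32 (.cone 27))) (.dom 32 35 (.lnk 16 (.dom 2 26 (.dom 21 12 (.dom 12 18 (.cone 26)))) (.dom 12 15 (.dom 21 13 (.lnk 18 (.dom 19 1 (.cone 15)) (.dom 26 2 (.dom 2 35 (.dom 15 13 (.cone 19)))))))))))))))

/-- certificate of state 11 -/
def ct11 : Cert :=
  (.dom 12 11 (.dom 14 15 (.dom 1 17 (.dom 16 11 (.dom 18 15 (.dom 17 6 (.dom 6 11 (.dom 13 21 (.dom 24 21 (.dom 21 15 (.cone 2)))))))))))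

/-- certificate of state 12 -/
def ct12 : Cert :=
  (.dom 5 25 (.dom 7 6 (.dom 10 22 (.dom 22 19 (.dom 23 19 (.dom 2 0 (.dom 18 0 (.dom 20 6 (.dom 6 9 (.dom 13 21 (.cone 0)))))))))))

/-- certificate of state 13 -/
def ct13 : Cert :=
  (.dom 5 25 (.dom 7 6 (.dom 10 22 (.dom 16 30 (.dom 24 13 (.dom 32 9 (.dom 34 27 (.lnk 2 (.dom 15 9 (.cone 27)) (.lnk 19 (.dom 13 21 (.dom 21 22 (.dom 22 18 (.cone 25)))) (.dom 13 15 (.dom 22 15 (.dom 21 9 (.dom 9 6 (.dom 6 20 (.dom 15 18 (.cone 30))))))))))))))))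

/-- certificate of state 14 -/
def ct14 : Cert :=
  (.dom 7 6 (.dom 14 23 (.dom 17 20 (.lnk 2 (.dom 0 27 (.dom 9 11 (.dom 11 27 (.cone 25)))) (.lnk 25 (.dom 23 18 (.cone 0)) (.dom 23 22 (.dom 27 6 (.lnk 18 (.dom 11 20 (.cone 0)) (.dom 11 13 (.dom 20 6 (.dom 6 9 (.cone 21))))))))))))

/-- certificate of state 15 -/
def ct15 : Cert :=
  (.dom 7 6 (.dom 9 11 (.dom 6 20 (.dom 14 15 (.dom 17 20 (.dom 20 11 (.dom 13 21 (.dom 24 21 (.dom 22 15 (.dom 15 11 (.dom 2 27 (.dom 18 16 (.dom 21 11 (.cone 27))))))))))))))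

/-- certificate of state 16 -/
def ct16 : Cert :=
  (.dom 1 19 (.dom 5 23 (.dom 8 35 (.dom 10 0 (.dom 12 0 (.dom 26 23 (.dom 23 19 (.dom 28 0 (.dom 29 0 (.dom 30 0 (.dom 3 19 (.cone 35))))))))))))

/-- certificate of state 17 -/
def ct17 : Cert :=
  (.dom 5 26 (.dom 10 12 (.dom 24 33 (.dom 28 31 (.dom 30 16 (.dom 32 35 (.dom 34 4 (.lnk 3 (.dom 1 4 (.dom 15 4 (.dom 16 26 (.cone 4)))) (.lnk 26 (.dom 4 15 (.cone 31)) (.dom 4 8 (.dom 16 12 (.lnk 12 (.dom 31 15 (.cone 29)) (.dom 29 1 (.dom 1 8 (.cone 35)))))))))))))))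

/-- certificate of state 18 -/
def ct18 : Cert :=
  (.dom 14 23 (.dom 17 1 (.dom 28 31 (.lnk 3 (.dom 0 1 (.cone 4)) (.lnk 4 (.dom 1 8 (.dom 8 23 (.dom 11 26 (.cone 23)))) (.dom 26 31 (.dom 11 12 (.dom 12 0 (.dom 29 1 (.dom 1 8 (.cone 35)))))))))))

/-- certificate of state 19 -/
def ct19 : Cert :=
  (.dom 12 11 (.dom 14 15 (.dom 1 17 (.dom 16 11 (.dom 3 4 (.dom 24 33 (.dom 26 11 (.dom 28 11 (.dom 31 15 (.dom 34 4 (.dom 4 15 (.dom 11 29 (.dom 29 17 (.cone 8))))))))))))))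

/-- certificate of state 20 -/
def ct20 : Cert :=
  (.dom 5 23 (.dom 7 8 (.dom 10 0 (.dom 22 19 (.dom 23 19 (.dom 28 0 (.dom 29 0 (.dom 30 0 (.dom 9 32 (.dom 25 19 (.dom 31 0 (.dom 32 8 (.dom 8 19 (.dom 4 3 (.cone 0)))))))))))))))

/-- certificate of state 22 -/
def ct22 : Cert :=
  (.dom 7 8 (.dom 14 23 (.dom 28 31 (.lnk 8 (.dom 0 17 (.dom 23 4 (.cone 17))) (.dom 17 20 (.lnk 4 (.dom 9 11 (.cone 3)) (.lnk 3 (.dom 11 20 (.dom 20 0 (.cone 25))) (.dom 20 29 (.dom 25 31 (.dom 23 22 (.dom 22 0 (.dom 29 33 (.cone 9)))))))))))))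

/-- certificate of state 23 -/
def ct23 : Cert :=
  (.dom 7 8 (.dom 9 11 (.dom 14 15 (.dom 8 17 (.dom 4 3 (.dom 17 20 (.dom 20 11 (.dom 24 29 (.dom 28 31 (.dom 33 29 (.dom 22 15 (.dom 15 11 (.dom 29 11 (.dom 31 16 (.cone 3)))))))))))))))

/-- certificate of state 24 -/
def ct24 : Cert :=
  (.dom 1 19 (.dom 5 2 (.dom 10 0 (.dom 12 0 (.dom 19 35 (.dom 26 2 (.dom 23 35 (.dom 4 32 (.cone 0)))))))))

/-- certificate of state 25 -/
def ct25 : Cert :=
  (.dom 5 2 (.dom 10 12 (.dom 12 21 (.dom 24 33 (.dom 26 2 (.dom 16 30 (.dom 34 4 (.lnk 1 (.dom 15 4 (.cone 19)) (.dom 15 32 (.dom 19 35 (.dom 4 32 (.dom 2 31 (.dom 6 33 (.cone 21))))))))))))))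

/-- certificate of state 26 -/
def ct26 : Cert :=
  (.dom 12 21 (.dom 14 23 (.dom 26 2 (.lnk 1 (.dom 0 17 (.dom 23 4 (.cone 17))) (.dom 17 6 (.dom 23 35 (.lnk 4 (.dom 6 11 (.cone 2)) (.dom 2 31 (.dom 6 33 (.cone 21))))))))))

/-- certificate of state 27 -/
def ct27 : Cert :=
  (.dom 12 11 (.dom 14 15 (.dom 1 17 (.dom 16 11 (.dom 17 6 (.dom 6 11 (.dom 4 2 (.dom 15 31 (.dom 24 21 (.dom 26 2 (.dom 33 21 (.dom 21 31 (.cone 2)))))))))))))

/-- certificate of state 28 -/
def ct28 : Cert :=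
  (.dom 5 2 (.dom 7 6 (.dom 10 0 (.dom 20 6 (.dom 6 9 (.dom 4 2 (.dom 2 31 (.dom 9 0 (.dom 22 19 (.dom 23 19 (.cone 0)))))))))))

/-- certificate of state 29 -/
def ct29 : Cert :=
  (.dom 5 2 (.dom 7 6 (.dom 10 21 (.dom 16 30 (.dom 20 6 (.dom 6 9 (.dom 4 2 (.dom 15 31 (.dom 22 19 (.dom 24 21 (.dom 25 2 (.dom 30 9 (.dom 9 32 (.dom 33 21 (.dom 21 31 (.cone 2))))))))))))))))

/-- certificate of state 30 -/
def ct30 : Cert :=
  (.dom 7 6 (.dom 14 23 (.dom 17 6 (.dom 20 6 (.dom 6 9 (.dom 4 2 (.dom 2 31 (.dom 9 21 (.dom 11 21 (.dom 21 22 (.dom 23 31 (.cone 0))))))))))))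

/-- certificate of state 31 -/
def ct31 : Cert :=
  (.dom 7 6 (.dom 9 11 (.dom 6 20 (.dom 14 15 (.dom 17 20 (.dom 20 11 (.dom 4 2 (.dom 15 31 (.dom 22 21 (.dom 21 11 (.dom 24 11 (.dom 25 2 (.cone 11)))))))))))))

/-- reduction of state 10 -/
def rd10 : Red :=
  (.dom 14 23 .stop)

/-- reduction of state 21 -/
def rd21 : Red :=
  (.dom 5 25 (.dom 7 8 (.dom 10 22 (.dom 16 30 (.dom 24 33 (.dom 28 31 (.dom 34 4 .stop)))))))

theorem ck0 : check 36 nbf ct0 40744269099 = true := by decide +kernel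

theorem ck1 : check 36 nbf ct1 57932625194 = true := by decide +kernel

theorem ck2 : check 36 nbf ct2 35375184139 = true := by decide +kernel

theorem ck3 : check 36 nbf ct3 52563540234 = true := by decide +kernel

theorem ck4 : check 36 nbf ct4 6356215721 = true := by decide +kernel

theorem ck5 : check 36 nbf ct5 23544571816 = true := by decide +kernel

theorem ck6 : check 36 nbf ct6 987130761 = true := by decide +kernel

theorem ck7 : check 36 nbf ct7 18175486856 = true := by decide +kernel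

theorem ck8 : check 36 nbf ct8 39941059687 = true := by decide +kernel

theorem ck9 : check 36 nbf ct9 57129415782 = true := by decide +kernel

theorem ck10 : checkR 36 nbf core10 rd10 34571974727 = true := by decide +kernel

theorem ck11 : check 36 nbf ct11 51760330822 = true := by decide +kernel

theorem ck12 : check 36 nbf ct12 5553006309 = true := by decide +kernel

theorem ck13 : check 36 nbf ct13 22741362404 = true := by decide +kernel

theorem ck14 : check 36 nbf ct14 183921349 = true := by decide +kernel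

theorem ck15 : check 36 nbf ct15 17372277444 = true := by decide +kernel

theorem ck16 : check 36 nbf ct16 51347199291 = true := by decide +kernel

theorem ck17 : check 36 nbf ct17 68535555386 = true := by decide +kernel

theorem ck18 : check 36 nbf ct18 45978114331 = true := by decide +kernel

theorem ck19 : check 36 nbf ct19 63166470426 = true := by decide +kernel

theorem ck20 : check 36 nbf ct20 16959145913 = true := by decide +kernel

theorem ck21 : checkR 36 nbf core21 rd21 34147502008 = true := by decide +kernel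

theorem ck22 : check 36 nbf ct22 11590060953 = true := by decide +kernel

theorem ck23 : check 36 nbf ct23 28778417048 = true := by decide +kernel

theorem ck24 : check 36 nbf ct24 50543989879 = true := by decide +kernel

theorem ck25 : check 36 nbf ct25 67732345974 = true := by decide +kernel

theorem ck26 : check 36 nbf ct26 45174904919 = true := by decide +kernel

theorem ck27 : check 36 nbf ct27 62363261014 = true := by decide +kernel

theorem ck28 : check 36 nbf ct28 16155936501 = true := by decide +kernel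

theorem ck29 : check 36 nbf ct29 33344292596 = true := by decide +kernel

theorem ck30 : check 36 nbf ct30 10786851541 = true := by decide +kernel

theorem ck31 : check 36 nbf ct31 27975207636 = true := by decide +kernel

end Y36

end Pool.LU
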